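import Pool.Agent.Lib.MP_ed1a61_al_Q.Cl

/-!
# Irrational scl, block Q: the sum over the syllables is odd with defect at most one
-/

set_option autoImplicit false

namespace SclIrr.Q

private theorem redL_iff {ι : Type} {G : ι → Type} [∀ i, Group (G i)] {H : Type} [Group H]
    (φ : ∀ i, H →* G i) (l : List (Σ i, G i)) :
    RedL φ l ↔ (l.map Sigma.fst).IsChain (fun i j => i ≠ j) ∧ ∀ s ∈ l, s.2 ∉ (φ s.1).range := by
  unfold RedL
  rw [List.isChain_map]

private theorem valL_append {ι : Type} {G : ι → Type} [∀ i, Group (G i)] {GG : Type} [Group GG]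
    (io : ∀ i, G i →* GG) (l m : List (Σ i, G i)) :
    valL io (l ++ m) = valL io l * valL io m := by
  simp [valL]

private theorem valL_cons {ι : Type} {G : ι → Type} [∀ i, Group (G i)] {GG : Type} [Group GG]
    (io : ∀ i, G i →* GG) (s : Σ i, G i) (m : List (Σ i, G i)) :
    valL io (s :: m) = io s.1 s.2 * valL io m := by
  simp [valL]

private theorem valL_nil {ι : Type} {G : ι → Type} [∀ i, Group (G i)] {GG : Type} [Group GG]
    (io : ∀ i, G i →* GG) : valL io [] = 1 := by
  simp [valL]

private theorem sumL_append {ι : Type} {G : ι → Type} [∀ i, Group (G i)] (f : ∀ i, G i → ℝ)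
    (l m : List (Σ i, G i)) : sumL f (l ++ m) = sumL f l + sumL f m := by
  simp [sumL]

private theorem sumL_cons {ι : Type} {G : ι → Type} [∀ i, Group (G i)] (f : ∀ i, G i → ℝ)
    (s : Σ i, G i) (m : List (Σ i, G i)) : sumL f (s :: m) = f s.1 s.2 + sumL f m := by
  simp [sumL]

private theorem sumL_nil {ι : Type} {G : ι → Type} [∀ i, Group (G i)] (f : ∀ i, G i → ℝ) :
    sumL f [] = 0 := by
  simp [sumL]

private theorem range_mul_right {ι : Type} {G : ι → Type} [∀ i, Group (G i)] {H : Type}
    [Group H] (φ : ∀ i, H →* G i) {i : ι} {g : G i} (hg : g ∉ (φ i).range) (h : H) :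
    g * φ i h ∉ (φ i).range := by
  intro hh
  exact hg ((Subgroup.mul_mem_cancel_right _ (MonoidHom.mem_range.2 ⟨h, rfl⟩)).1 hh)

private theorem range_mul_left {ι : Type} {G : ι → Type} [∀ i, Group (G i)] {H : Type}
    [Group H] (φ : ∀ i, H →* G i) {i : ι} {g : G i} (hg : g ∉ (φ i).range) (h : H) :
    φ i h * g ∉ (φ i).range := by
  intro hh
  exact hg ((Subgroup.mul_mem_cancel_left _ (MonoidHom.mem_range.2 ⟨h, rfl⟩)).1 hh)

/-- The inverse of a reduced list.  PROOF. `valL` of the reversed list of inverses is the inverse;
it is reduced again (chain reversed; ranges are subgroups); the sum changes sign. -/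
theorem inv_list {ι : Type} {G : ι → Type} [∀ i, Group (G i)] {H : Type} [Group H]
    (φ : ∀ i, H →* G i) (f : ∀ i, G i → ℝ) (hf : ∀ i, Odd1 (f i)) {GG : Type} [Group GG]
    (io : ∀ i, G i →* GG) (l : List (Σ i, G i)) (hl : RedL φ l) :
    ∃ m : List (Σ i, G i), RedL φ m ∧ valL io m = (valL io l)⁻¹ ∧ sumL f m = - sumL f l := by
  refine ⟨(l.map fun s => (⟨s.1, s.2⁻¹⟩ : Σ i, G i)).reverse, ?_, ?_, ?_⟩
  · rw [redL_iff] at hl ⊢
    refine ⟨?_, ?_⟩
    · rw [List.map_reverse, List.isChain_reverse, List.map_map]
      exact hl.1.imp fun i j hij => Ne.symm hij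
    · intro s hs
      rw [List.mem_reverse, List.mem_map] at hs
      obtain ⟨t, ht, rfl⟩ := hs
      intro hh
      exact hl.2 t ht ((Subgroup.inv_mem_iff _).1 hh)
  · induction l with
    | nil => simp [valL]
    | cons s l ih =>
      have hl' : RedL φ l := by
        rw [redL_iff] at hl ⊢
        refine ⟨?_, fun t ht => hl.2 t (List.mem_cons_of_mem s ht)⟩
        have := hl.1
        rw [List.map_cons] at this
        exact this.tail
      rw [List.map_cons, List.reverse_cons, valL_append, ih hl', valL_cons, valL_cons, valL_nil,
        mul_one, mul_inv_rev, map_inv]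
  · induction l with
    | nil => simp [sumL]
    | cons s l ih =>
      have hl' : RedL φ l := by
        rw [redL_iff] at hl ⊢
        refine ⟨?_, fun t ht => hl.2 t (List.mem_cons_of_mem s ht)⟩
        have := hl.1
        rw [List.map_cons] at this
        exact this.tail
      rw [List.map_cons, List.reverse_cons, sumL_append, ih hl', sumL_cons, sumL_cons, sumL_nil,
        (hf s.1).odd]
      ring

/-- Moving an element of the amalgamated subgroup from the right to the left of a reduced list.
PROOF. `l = []`: trivial.  Otherwise put `φ(h)` into the last letter: `valL io l * b h = valL io m`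
with `m` reduced, same indices and sum `sumL f l + e h`. -/
theorem absorb_right {ι : Type} {G : ι → Type} [∀ i, Group (G i)] {H : Type} [Group H]
    (φ : ∀ i, H →* G i) (e : H → ℝ) (f : ∀ i, G i → ℝ)
    (hr : ∀ i h x, f i (x * φ i h) = f i x + e h) {GG : Type} [Group GG]
    (io : ∀ i, G i →* GG) (b : H →* GG) (hc : ∀ i h, io i (φ i h) = b h)
    (l : List (Σ i, G i)) (s : Σ i, G i) (hl : RedL φ (l ++ [s])) (h : H) :
    RedL φ (l ++ [⟨s.1, s.2 * φ s.1 h⟩]) ∧
      valL io (l ++ [⟨s.1, s.2 * φ s.1 h⟩]) = valL io (l ++ [s]) * b h ∧
      sumL f (l ++ [⟨s.1, s.2 * φ s.1 h⟩]) = sumL f (l ++ [s]) + e h := by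
  refine ⟨?_, ?_, ?_⟩
  · rw [redL_iff] at hl ⊢
    refine ⟨?_, ?_⟩
    · have := hl.1
      rw [List.map_append] at this ⊢
      exact this
    · intro t ht
      rw [List.mem_append] at ht
      rcases ht with ht | ht
      · exact hl.2 t (List.mem_append_left _ ht)
      · rw [List.mem_singleton] at ht
        subst ht
        exact range_mul_right φ (hl.2 s (by simp)) h
  · rw [valL_append, valL_append, valL_cons, valL_cons, valL_nil, mul_one, mul_one, map_mul, hc]
    group
  · rw [sumL_append, sumL_append, sumL_cons, sumL_cons, sumL_nil, hr]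
    ring

/-- PROOF. Oddness: write `g = valL l * b h`; `l = []`: `F (b h) = e h`, `e h⁻¹ = - e h`;
`l = l' ++ [s]`: by `absorb_right` `g = valL m`, then `inv_list`.
Defect: show by induction on `u` (from the right), for all `h`, `v` reduced:
`|sumL f u + e h + sumL f v - F (valL u * b h * valL v)| ≤ 1`.  `u = []`: the element is
`b h * valL v`; `v = []`: value `e h`; `v = t :: v'`: replace `t` by `φ(h) t` (reduced again,
`hl`), value `e h + sumL f v`.  `v = []`: `absorb_right`.  `u = u' ++ [(i, g)]`, `v = (j, g') ::
v'`,
`i ≠ j`: `u' ++ [(i, g φ(h))] ++ v` is reduced, defect `0`.  `i = j`: `k := g φ(h) g'`; if `k` is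
not in the range, `u' ++ [(i, k)] ++ v'` is reduced and the defect is that of `f i` at
`(g φ(h), g')`; if `k = φ(h')`: the element is `valL u' * b h' * valL v'` and
`f g + e h + f g' = f (g φ(h)) + f ((g φ(h))⁻¹ φ(h')) = e h'`: induction.  Finally
`x = valL l * b h`, `y = valL m * b h''`: if `m = []` then `x y = valL l * b (h h'')`, defect
`0`; otherwise absorb
`b h''` into `m`. -/
theorem amal_odd1 {ι : Type} {G : ι → Type} [∀ i, Group (G i)] {H : Type} [Group H]
    (φ : ∀ i, H →* G i) (e : H → ℝ) (f : ∀ i, G i → ℝ) (hf : ∀ i, Odd1 (f i))
    (emul : ∀ h k, e (h * k) = e h + e k)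
    (hl : ∀ i h x, f i (φ i h * x) = e h + f i x)
    (hr : ∀ i h x, f i (x * φ i h) = f i x + e h) {GG : Type} [Group GG]
    (io : ∀ i, G i →* GG) (b : H →* GG) (F : GG → ℝ) (hF : AmDat φ e f io b F) : Odd1 F := by
  have e1 : e 1 = 0 := by
    have := emul 1 1
    rw [mul_one] at this
    linarith
  have einv : ∀ h, e h⁻¹ = - e h := fun h => by
    have := emul h h⁻¹
    rw [mul_inv_cancel, e1] at this
    linarith
  have hval : ∀ l, RedL φ l → F (valL io l) = sumL f l := fun l hl' => by
    have := hF.val l 1 hl'
    rw [map_one, mul_one, e1, add_zero] at this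
    exact this
  have hnil : RedL φ [] := by
    rw [redL_iff]
    exact ⟨List.IsChain.nil, fun s hs => absurd hs (List.not_mem_nil)⟩
  have key : ∀ u : List (Σ i, G i), RedL φ u → ∀ h : H, ∀ v : List (Σ i, G i), RedL φ v →
      |sumL f u + e h + sumL f v - F (valL io u * b h * valL io v)| ≤ 1 := by
    intro u
    induction u using List.reverseRecOn with
    | nil =>
      intro _ h v hv
      cases v with
      | nil =>
        have := hF.val [] h hnil
        rw [valL_nil, sumL_nil] at this ⊢
        rw [mul_one, this]
        simp
      | cons t v' =>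
        have hred : RedL φ (⟨t.1, φ t.1 h * t.2⟩ :: v') := by
          rw [redL_iff] at hv ⊢
          refine ⟨?_, ?_⟩
          · have := hv.1
            rw [List.map_cons] at this ⊢
            exact this
          · intro s hs
            rw [List.mem_cons] at hs
            rcases hs with hs | hs
            · subst hs
              exact range_mul_left φ (hv.2 t List.mem_cons_self) h
            · exact hv.2 s (List.mem_cons_of_mem t hs)
        have hv1 := hval _ hred
        rw [valL_cons, sumL_cons, hl, map_mul, hF.comp] at hv1
        rw [valL_nil, sumL_nil, one_mul, valL_cons, sumL_cons, ← mul_assoc]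
        rw [hv1]
        simp [add_assoc]
    | append_singleton u' s ih =>
      intro hu h v hv
      have hu' : RedL φ u' := by
        rw [redL_iff] at hu ⊢
        refine ⟨?_, fun t ht => hu.2 t (List.mem_append_left _ ht)⟩
        have := hu.1
        rw [List.map_append] at this
        exact this.left_of_append
      cases v with
      | nil =>
        have := hF.val _ h hu
        rw [valL_nil, sumL_nil, mul_one, this]
        simp
      | cons t v' =>
        have hv' : RedL φ v' := by
          rw [redL_iff] at hv ⊢
          refine ⟨?_, fun r hr' => hv.2 r (List.mem_cons_of_mem t hr')⟩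
          have := hv.1
          rw [List.map_cons] at this
          exact this.tail
        by_cases hst : s.1 = t.1
        · obtain ⟨i, g⟩ := s
          obtain ⟨j, g'⟩ := t
          simp only at hst
          subst hst
          by_cases hk : g * φ i h * g' ∈ (φ i).range
          · obtain ⟨h', hh'⟩ := MonoidHom.mem_range.1 hk
            have hg' : g' = (g * φ i h)⁻¹ * φ i h' := by
              rw [hh']
              group
            have hsum : f i g + e h + f i g' = e h' := by
              have h1 : f i g' = f i ((g * φ i h)⁻¹) + e h' := by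
                rw [hg', hr]
              rw [h1, (hf i).odd, hr]
              ring
            have hv1 : valL io (u' ++ [⟨i, g⟩]) * b h * valL io (⟨i, g'⟩ :: v') =
                valL io u' * b h' * valL io v' := by
              rw [valL_append, valL_cons, valL_cons, valL_nil, mul_one, ← hF.comp i h,
                ← hF.comp i h', hh', map_mul, map_mul]
              simp only [mul_assoc]
            have hs1 : sumL f (u' ++ [⟨i, g⟩]) + e h + sumL f (⟨i, g'⟩ :: v') =
                sumL f u' + e h' + sumL f v' := by
              rw [sumL_append, sumL_cons, sumL_cons, sumL_nil, ← hsum]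
              ring
            rw [hv1, hs1]
            exact ih hu' h' v' hv'
          · have hred : RedL φ (u' ++ (⟨i, g * φ i h * g'⟩ :: v')) := by
              rw [redL_iff] at hu hv ⊢
              refine ⟨?_, ?_⟩
              · have h1 := hu.1
                have h2 := hv.1
                rw [List.map_append, List.map_cons, List.map_nil] at h1
                rw [List.map_cons] at h2
                rw [List.map_append, List.map_cons]
                rw [List.isChain_append] at h1 ⊢
                exact ⟨h1.1, h2, by simpa using h1.2.2⟩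
              · intro r hr'
                rw [List.mem_append, List.mem_cons] at hr'
                rcases hr' with hr' | hr' | hr'
                · exact hu.2 r (List.mem_append_left _ hr')
                · subst hr'
                  exact hk
                · exact hv.2 r (List.mem_cons_of_mem _ hr')
            have hv1 : valL io (u' ++ [⟨i, g⟩]) * b h * valL io (⟨i, g'⟩ :: v') =
                valL io (u' ++ (⟨i, g * φ i h * g'⟩ :: v')) := by
              rw [valL_append, valL_append, valL_cons, valL_cons, valL_cons, valL_nil, mul_one,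
                ← hF.comp i h, map_mul, map_mul]
              simp only [mul_assoc]
            rw [hv1, hval _ hred, sumL_append, sumL_append, sumL_cons, sumL_cons, sumL_cons,
              sumL_nil]
            have hd := (hf i).defect (g * φ i h) g'
            rw [hr] at hd
            have h3 : sumL f u' + (f i g + 0) + e h + (f i g' + sumL f v') -
                (sumL f u' + (f i (g * φ i h * g') + sumL f v')) =
                f i g + e h + f i g' - f i (g * φ i h * g') := by ring
            rw [h3]
            exact hd
        · have hred : RedL φ (u' ++ (⟨s.1, s.2 * φ s.1 h⟩ :: t :: v')) := by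
            rw [redL_iff] at hu hv ⊢
            refine ⟨?_, ?_⟩
            · have h1 := hu.1
              have h2 := hv.1
              rw [List.map_append, List.map_cons, List.map_nil] at h1
              rw [List.map_cons] at h2
              rw [List.map_append, List.map_cons, List.map_cons]
              rw [List.isChain_append] at h1 ⊢
              refine ⟨h1.1, ?_, by simpa using h1.2.2⟩
              rw [List.isChain_cons_cons]
              exact ⟨hst, h2⟩
            · intro r hr'
              rw [List.mem_append, List.mem_cons] at hr'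
              rcases hr' with hr' | hr' | hr'
              · exact hu.2 r (List.mem_append_left _ hr')
              · subst hr'
                exact range_mul_right φ (hu.2 s (by simp)) h
              · exact hv.2 r hr'
          have hv1 : valL io (u' ++ [s]) * b h * valL io (t :: v') =
              valL io (u' ++ (⟨s.1, s.2 * φ s.1 h⟩ :: t :: v')) := by
            rw [valL_append, valL_append, valL_cons, valL_cons io ⟨s.1, s.2 * φ s.1 h⟩,
              valL_nil, mul_one, ← hF.comp s.1 h, map_mul]
            simp only [mul_assoc]
          rw [hv1, hval _ hred, sumL_append, sumL_append, sumL_cons,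
            sumL_cons f ⟨s.1, s.2 * φ s.1 h⟩, sumL_nil, hr]
          have h3 : sumL f u' + (f s.1 s.2 + 0) + e h + sumL f (t :: v') -
              (sumL f u' + (f s.1 s.2 + e h + sumL f (t :: v'))) = 0 := by ring
          rw [h3, abs_zero]
          exact zero_le_one
  refine ⟨fun x => ?_, fun x y => ?_⟩
  · obtain ⟨l, h, hlr, rfl⟩ := hF.gen x
    rcases List.eq_nil_or_concat' l with hl0 | ⟨l', s, hl0⟩
    · subst hl0
      have h1 := hF.val [] h hnil
      have h2 := hF.val [] h⁻¹ hnil
      rw [valL_nil, one_mul, sumL_nil, zero_add] at h1 h2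
      rw [valL_nil, one_mul, ← map_inv, h1, h2, einv]
    · subst hl0
      obtain ⟨hm, hmv, hms⟩ := absorb_right φ e f hr io b hF.comp l' s hlr h
      obtain ⟨m, hm1, hm2, hm3⟩ := inv_list φ f hf io _ hm
      rw [← hmv, ← hm2, hval _ hm1, hval _ hm, hm3]
  · obtain ⟨l, h, hlr, rfl⟩ := hF.gen x
    obtain ⟨m, h2, hmr, rfl⟩ := hF.gen y
    rcases List.eq_nil_or_concat' m with hm0 | ⟨m', s, hm0⟩
    · subst hm0
      have h3 := hF.val l (h * h2) hlr
      have h4 := hF.val l h hlr
      have h5 := hF.val [] h2 hnil
      rw [valL_nil, one_mul, sumL_nil, zero_add] at h5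
      rw [map_mul] at h3
      rw [valL_nil, one_mul, h4, h5, mul_assoc, h3, emul]
      have h6 : sumL f l + e h + e h2 - (sumL f l + (e h + e h2)) = 0 := by ring
      rw [h6, abs_zero]
      exact zero_le_one
    · subst hm0
      obtain ⟨hm, hmv, hms⟩ := absorb_right φ e f hr io b hF.comp m' s hmr h2
      rw [← hmv, hval _ hm, hF.val l h hlr]
      exact key l hlr h _ hm

end SclIrr.Q
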