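import Pool.Agent.Lib.MP_ed1a61_al_Q.Defs

/-!
# Irrational scl, block Q: the sum over the syllables on an amalgam
-/

set_option autoImplicit false

namespace SclIrr.Q

open Monoid

section aux

variable {ι : Type} {G : ι → Type} [∀ i, Group (G i)] {H : Type} [Group H]
  {φ : ∀ i, H →* G i}

private noncomputable def AmalW_Fw (e : H → ℝ) (f : ∀ i, G i → ℝ)
    {d : PushoutI.NormalWord.Transversal φ} (w : PushoutI.NormalWord d) : ℝ :=
  e w.head + sumL f w.toList

private theorem AmalW_cons (e : H → ℝ) (f : ∀ i, G i → ℝ)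
    (hl : ∀ i h x, f i (φ i h * x) = e h + f i x)
    (hr : ∀ i h x, f i (x * φ i h) = f i x + e h)
    {d : PushoutI.NormalWord.Transversal φ} {i : ι} (g : G i) (w : PushoutI.NormalWord d)
    (hmw : w.fstIdx ≠ some i) (hgr : g ∉ (φ i).range) :
    AmalW_Fw e f (PushoutI.NormalWord.cons g w hmw hgr) = f i g + AmalW_Fw e f w := by
  have h1 := (d.compl i).equiv_fst_mul_equiv_snd (g * φ i w.head)
  have h2 : φ i ((MonoidHom.ofInjective (d.injective i)).symm
      ((d.compl i).equiv (g * φ i w.head)).1) =
      (((d.compl i).equiv (g * φ i w.head)).1 : G i) :=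
    MonoidHom.apply_ofInjective_symm _ _
  have h3 := hl i ((MonoidHom.ofInjective (d.injective i)).symm
      ((d.compl i).equiv (g * φ i w.head)).1) (((d.compl i).equiv (g * φ i w.head)).2 : G i)
  rw [h2, h1, hr] at h3
  have h4 : AmalW_Fw e f (PushoutI.NormalWord.cons g w hmw hgr) =
      e ((MonoidHom.ofInjective (d.injective i)).symm
        ((d.compl i).equiv (g * φ i w.head)).1) +
      (f i (((d.compl i).equiv (g * φ i w.head)).2 : G i) + sumL f w.toList) := rfl
  rw [h4, AmalW_Fw]
  linarith

private theorem AmalW_list (e : H → ℝ) (f : ∀ i, G i → ℝ)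
    (hl : ∀ i h x, f i (φ i h * x) = e h + f i x)
    (hr : ∀ i h x, f i (x * φ i h) = f i x + e h)
    (d : PushoutI.NormalWord.Transversal φ) (h : H) (l : List (Σ i, G i)) (hl' : RedL φ l) :
    ∃ w : PushoutI.NormalWord d,
      w.prod = valL (fun i => PushoutI.of (φ := φ) i) l * PushoutI.base φ h ∧
      w.toList.map Sigma.fst = l.map Sigma.fst ∧ AmalW_Fw e f w = sumL f l + e h := by
  induction l with
  | nil =>
    refine ⟨⟨CoprodI.Word.empty, h, fun i g hg => by simp [CoprodI.Word.empty] at hg⟩, ?_, ?_, ?_⟩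
    · simp [PushoutI.NormalWord.prod, valL]
    · rfl
    · simp [AmalW_Fw, sumL, CoprodI.Word.empty]
  | cons s l ih =>
    have hred : RedL φ l := ⟨hl'.1.tail, fun t ht => hl'.2 t (List.mem_cons_of_mem _ ht)⟩
    obtain ⟨w, hw1, hw2, hw3⟩ := ih hred
    have hmw : w.fstIdx ≠ some s.1 := by
      rw [CoprodI.Word.fstIdx, ← List.head?_map, hw2]
      intro hc
      cases l with
      | nil => simp at hc
      | cons t l =>
        simp only [List.map_cons, List.head?_cons, Option.some.injEq] at hc
        exact (List.isChain_cons_cons.1 hl'.1).1 hc.symm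
    have hgr : s.2 ∉ (φ s.1).range := hl'.2 s List.mem_cons_self
    refine ⟨PushoutI.NormalWord.cons s.2 w hmw hgr, ?_, ?_, ?_⟩
    · rw [PushoutI.NormalWord.prod_cons, hw1]
      simp [valL, mul_assoc]
    · simp [hw2]
    · rw [AmalW_cons e f hl hr, hw3]
      simp [sumL]
      ring

private theorem AmalW_red {d : PushoutI.NormalWord.Transversal φ} (w : PushoutI.NormalWord d) :
    RedL φ w.toList := by
  refine ⟨w.chain_ne, fun s hs hr => ?_⟩
  have h1 : s.2 ∈ d.set s.1 := w.normalized s.1 s.2 hs
  have h2 := (d.compl s.1).equiv_snd_eq_self_iff_mem (one_mem _) |>.2 h1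
  have h3 := (d.compl s.1).coe_equiv_snd_eq_one_iff_mem (d.one_mem _) |>.2 hr
  exact w.ne_one s hs (h2.symm.trans h3)

end aux

/-- The pushout of the `G i` over `H` with the sum over the syllables.

PROOF. Classical decidability, `d` a transversal (`PushoutI.NormalWord.transversal_nonempty`).  For
a normal word `w` put `Fw w = e w.head + sumL f w.toList`; `F g := Fw (g • empty)`, i.e.
`F w.prod = Fw w` (`NormalWord.prod_smul_empty`).  (1) `Fw (cons g w _ _) = f i g + Fw w`: `cons`
has list `n.2 :: w.toList` and head `n.1` with `n.1 n.2 = g φ_i(w.head)`, and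
`f (g φ_i(h)) = f g + e h`, `f (φ_i(h') n.2) = e h' + f n.2`.  (2) for a reduced list `l` and `h`
there is a normal word `w` with `w.prod = valL of l * base h`, `w.toList.map Sigma.fst =
l.map Sigma.fst` and `Fw w = sumL f l + e h`: induction on `l` with `cons` (as in
`PushoutI.Reduced.exists_normalWord_prod_eq`).  This is `val`.  (3) `gen`: a normal word `w` is
`base head * valL of w.toList`; its letters are not in the ranges (they are in the transversal and
not `1`); if the list is nonempty put `φ_i(head)` into the first letter, otherwise `l = []`. -/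
theorem amal_exists {ι : Type} {G : ι → Type} [∀ i, Group (G i)] {H : Type} [Group H]
    (φ : ∀ i, H →* G i) (hφ : ∀ i, Function.Injective (φ i)) (e : H → ℝ) (f : ∀ i, G i → ℝ)
    (e1 : e 1 = 0) (f1 : ∀ i, f i 1 = 0)
    (hl : ∀ i h x, f i (φ i h * x) = e h + f i x)
    (hr : ∀ i h x, f i (x * φ i h) = f i x + e h) :
    ∃ F : PushoutI φ → ℝ, AmDat φ e f (fun i => PushoutI.of (φ := φ) i) (PushoutI.base φ) F := by
  classical
  obtain ⟨d⟩ := PushoutI.NormalWord.transversal_nonempty φ hφ
  have hF : ∀ w : PushoutI.NormalWord d,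
      AmalW_Fw e f (PushoutI.NormalWord.equiv (d := d) w.prod) = AmalW_Fw e f w := by
    intro w
    have : PushoutI.NormalWord.equiv (d := d) w.prod = w :=
      PushoutI.NormalWord.equiv.apply_symm_apply w
    rw [this]
  refine ⟨fun g => AmalW_Fw e f (PushoutI.NormalWord.equiv (d := d) g), ⟨?_, ?_, ?_⟩⟩
  · intro i h
    exact PushoutI.of_apply_eq_base φ i h
  · intro g
    obtain ⟨w, rfl⟩ : ∃ w : PushoutI.NormalWord d, w.prod = g :=
      ⟨PushoutI.NormalWord.equiv (d := d) g, PushoutI.NormalWord.equiv.symm_apply_apply g⟩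
    have hw := AmalW_red w
    have hp : w.prod = PushoutI.base φ w.head *
        valL (fun i => PushoutI.of (φ := φ) i) w.toList := by
      rw [PushoutI.NormalWord.prod, CoprodI.Word.prod, map_list_prod, valL, List.map_map]
      congr 2
    rw [hp]
    generalize w.toList = L at hw
    cases L with
    | nil => exact ⟨[], w.head, hw, by simp [valL]⟩
    | cons s l =>
      refine ⟨⟨s.1, φ s.1 w.head * s.2⟩ :: l, 1, ⟨?_, ?_⟩, ?_⟩
      · cases l with
        | nil => exact List.isChain_singleton _
        | cons t l =>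
          have h1 := hw.1
          rw [List.isChain_cons_cons] at h1 ⊢
          exact h1
      · intro t ht
        rcases List.mem_cons.1 ht with rfl | ht
        · intro hc
          exact hw.2 s List.mem_cons_self
            (((φ s.1).range.mul_mem_cancel_left ⟨w.head, rfl⟩).1 hc)
        · exact hw.2 t (List.mem_cons_of_mem _ ht)
      · simp only [valL, List.map_cons, List.prod_cons, map_mul, map_one, mul_one,
          PushoutI.of_apply_eq_base, mul_assoc]
  · intro l h hred
    obtain ⟨w, hw1, -, hw3⟩ := AmalW_list e f hl hr d h l hred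
    rw [← hw1, hF, hw3]

end SclIrr.Q
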