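import Pool.Agent.Lib.MP_ed1a61_al_Q.AvgFin

/-!
# Irrational scl, block Q: averaging
-/

set_option autoImplicit false

namespace SclIrr.Q

variable {B : Type} [Group B]

/-- A pointwise limit of a sequence of uniformly close functions along an ultrafilter.

PROOF. For each `be` the sequence lies in the compact interval `[f be - C, f be + C]`; take
`U := Filter.hyperfilter ℕ` (`≤ atTop`, `Nat.hyperfilter_le_atTop` or `Filter.Ultrafilter.of`) and
`isCompact_Icc.ultrafilter_le_nhds` for `U.map (fun N => u N be)`; choose the limits. -/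
theorem exists_lim {T : Type} (u : ℕ → T → ℝ) (f : T → ℝ) (C : ℝ)
    (h : ∀ N be, |u N be - f be| ≤ C) :
    ∃ (U : Filter ℕ) (g : T → ℝ), U.NeBot ∧ U ≤ Filter.atTop ∧
      ∀ be, Filter.Tendsto (fun N => u N be) U (nhds (g be)) := by
  have h1 : ∀ be, ∃ y : ℝ, Filter.Tendsto (fun N => u N be) (Filter.hyperfilter ℕ : Filter ℕ)
      (nhds y) := by
    intro be
    have h2 : ((Filter.hyperfilter ℕ).map (fun N => u N be) : Filter ℝ) ≤
        Filter.principal (Set.Icc (f be - C) (f be + C)) := by
      rw [Filter.le_principal_iff, Ultrafilter.coe_map, Filter.mem_map]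
      refine Filter.Eventually.of_forall fun N : ℕ => ?_
      have h3 := abs_le.1 (h N be)
      exact ⟨by linarith [h3.1], by linarith [h3.2]⟩
    obtain ⟨y, -, hy⟩ := isCompact_Icc.ultrafilter_le_nhds _ h2
    exact ⟨y, hy⟩
  choose g hg using h1
  exact ⟨(Filter.hyperfilter ℕ : Filter ℕ), g, inferInstance, Nat.hyperfilter_le_atTop, hg⟩

/-- PROOF. `exists_lim` for `avg x f th` and `avg_close`; oddness and defect pass to the limit
(`avg_odd`, `avg_defect`, `ge_of_tendsto` etc.); `f' (x be) = th + f' be` since the difference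
tends to zero (`avg_shift_left`); then all `k : ℤ` by `Int.induction_on`; the right version by
oddness: `f' (be x^k) = - f' (x^(-k) be⁻¹)`. -/
theorem average (x : B) (f : B → ℝ) (hf : Odd1 f) (th C : ℝ)
    (hC : ∀ n : ℤ, |f (x ^ n) - th * (n : ℝ)| ≤ C) :
    ∃ f' : B → ℝ, Odd1 f' ∧ (∀ (k : ℤ) (be : B), f' (x ^ k * be) = th * (k : ℝ) + f' be) ∧
      (∀ (k : ℤ) (be : B), f' (be * x ^ k) = f' be + th * (k : ℝ)) ∧
      ∃ C' : ℝ, ∀ be, |f' be - f be| ≤ C' := by
  obtain ⟨U, g, hU, hle, hg⟩ := exists_lim (fun N be => avg x f th N be) f (2 + 2 * C)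
    (fun N be => avg_close hf th C hC N be)
  have hodd : ∀ y, g y⁻¹ = - g y := by
    intro y
    have h1 := (hg y).neg
    have h2 : (fun N => -avg x f th N y) = fun N => avg x f th N y⁻¹ :=
      funext fun N => (avg_odd hf th N y).symm
    rw [h2] at h1
    exact tendsto_nhds_unique (hg y⁻¹) h1
  have hdef : ∀ y z, |g y + g z - g (y * z)| ≤ 1 := by
    intro y z
    have h1 := (((hg y).add (hg z)).sub (hg (y * z))).abs
    exact le_of_tendsto h1 (Filter.Eventually.of_forall fun N => avg_defect hf th N y z)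
  have hsh : ∀ y, g (x * y) = th + g y := by
    intro y
    have h1 : Filter.Tendsto (fun N : ℕ => 2 * (|f y| + 2 + 2 * C) / (2 * (N : ℝ) + 1))
        Filter.atTop (nhds 0) := by
      refine Filter.Tendsto.const_div_atTop ?_ _
      refine Filter.tendsto_atTop_add_const_right _ _ ?_
      exact (tendsto_natCast_atTop_atTop (R := ℝ)).const_mul_atTop two_pos
    have h2 : Filter.Tendsto
        (fun N => avg x f th N (x * y) - (th + avg x f th N y)) U (nhds 0) :=
      squeeze_zero_norm (fun N => avg_shift_left hf th C hC N y) (h1.mono_left hle)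
    have h3 := (hg (x * y)).sub ((tendsto_const_nhds (x := th)).add (hg y))
    have h4 := tendsto_nhds_unique h2 h3
    linarith
  have hleft : ∀ (k : ℤ) (be : B), g (x ^ k * be) = th * (k : ℝ) + g be := by
    intro k
    induction k using Int.induction_on with
    | zero =>
      intro be
      rw [zpow_zero, one_mul, Int.cast_zero, mul_zero, zero_add]
    | succ k ih =>
      intro be
      have h1 : x ^ ((k : ℤ) + 1) * be = x * (x ^ (k : ℤ) * be) := by
        rw [← mul_assoc, ← zpow_one_add, add_comm]
      rw [h1, hsh, ih]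
      push_cast
      ring
    | pred k ih =>
      intro be
      have h1 : x * (x ^ (-(k : ℤ) - 1) * be) = x ^ (-(k : ℤ)) * be := by
        rw [← mul_assoc, ← zpow_one_add]
        congr 2
        ring
      have h2 := hsh (x ^ (-(k : ℤ) - 1) * be)
      rw [h1, ih] at h2
      push_cast at h2 ⊢
      linarith
  refine ⟨g, ⟨hodd, hdef⟩, hleft, ?_, 2 + 2 * C, ?_⟩
  · intro k be
    have h1 : be * x ^ k = (x ^ (-k) * be⁻¹)⁻¹ := by
      rw [mul_inv_rev, inv_inv, ← zpow_neg, neg_neg]
    rw [h1, hodd, hleft, hodd]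
    push_cast
    ring
  · intro be
    exact le_of_tendsto (((hg be).sub_const (f be)).abs)
      (Filter.Eventually.of_forall fun N => avg_close hf th C hC N be)

end SclIrr.Q
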