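import Pool.Agent.Lib.MP_ed1a61_al_Q.Cl

/-!
# Irrational scl, block Q: finite averages
-/

set_option autoImplicit false

namespace SclIrr.Q

variable {B : Type} [Group B]

/-- The average over `|i|, |j| ≤ N` of `f (x^i * be * x^j) - th * (i + j)`. -/
noncomputable def avg (x : B) (f : B → ℝ) (th : ℝ) (N : ℕ) (be : B) : ℝ :=
  (∑ i ∈ Finset.Icc (-(N : ℤ)) N, ∑ j ∈ Finset.Icc (-(N : ℤ)) N,
    (f (x ^ i * be * x ^ j) - th * ((i : ℝ) + (j : ℝ)))) / (2 * (N : ℝ) + 1) ^ 2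

private theorem AvgFin_card (N : ℕ) :
    (((Finset.Icc (-(N : ℤ)) N).card : ℕ) : ℝ) = 2 * (N : ℝ) + 1 := by
  rw [Int.card_Icc]
  have h : ((N : ℤ) + 1 - (-(N : ℤ))).toNat = 2 * N + 1 := by omega
  rw [h]
  push_cast
  ring

private theorem AvgFin_neg (N : ℕ) (h : ℤ → ℝ) :
    ∑ i ∈ Finset.Icc (-(N : ℤ)) N, h (-i) = ∑ i ∈ Finset.Icc (-(N : ℤ)) N, h i := by
  refine Finset.sum_nbij' (fun i => -i) (fun i => -i) ?_ ?_ ?_ ?_ ?_
  · intro i hi
    rw [Finset.mem_Icc] at hi ⊢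
    omega
  · intro i hi
    rw [Finset.mem_Icc] at hi ⊢
    omega
  · intro i _
    exact neg_neg i
  · intro i _
    exact neg_neg i
  · intro i _
    rfl

private theorem AvgFin_tele (N : ℕ) (h : ℤ → ℝ) :
    ∑ i ∈ Finset.Icc (-(N : ℤ)) N, (h (i + 1) - h i) = h ((N : ℤ) + 1) - h (-(N : ℤ)) := by
  have e : ∑ i ∈ Finset.Icc (-(N : ℤ)) N, (h (i + 1) - h i) =
      ∑ k ∈ Finset.range (2 * N + 1),
        ((fun k : ℕ => h ((k : ℤ) - N)) (k + 1) - (fun k : ℕ => h ((k : ℤ) - N)) k) := by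
    refine Finset.sum_nbij' (fun i => (i + N).toNat) (fun k => (k : ℤ) - N) ?_ ?_ ?_ ?_ ?_
    · intro i hi
      rw [Finset.mem_Icc] at hi
      rw [Finset.mem_range]
      omega
    · intro k hk
      rw [Finset.mem_range] at hk
      rw [Finset.mem_Icc]
      omega
    · intro i hi
      rw [Finset.mem_Icc] at hi
      omega
    · intro k hk
      omega
    · intro i hi
      rw [Finset.mem_Icc] at hi
      have h1 : (((i + N).toNat : ℕ) : ℤ) = i + N := by omega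
      have h2 : (((i + N).toNat + 1 : ℕ) : ℤ) - N = i + 1 := by push_cast; omega
      have h3 : (((i + N).toNat : ℕ) : ℤ) - N = i := by omega
      simp only [h2, h3]
  have e' := Finset.sum_range_sub (fun k : ℕ => h ((k : ℤ) - N)) (2 * N + 1)
  rw [e, e']
  have h1 : ((2 * N + 1 : ℕ) : ℤ) - N = (N : ℤ) + 1 := by push_cast; ring
  have h2 : ((0 : ℕ) : ℤ) - N = -(N : ℤ) := by simp
  simp only [h1, h2]

private theorem AvgFin_three {x : B} {f : B → ℝ} (hf : Odd1 f) (be : B) (i j : ℤ) :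
    |f (x ^ i * be * x ^ j) - f (x ^ i) - f be - f (x ^ j)| ≤ 2 := by
  have h1 := hf.defect (x ^ i) be
  have h2 := hf.defect (x ^ i * be) (x ^ j)
  rw [abs_le] at h1 h2 ⊢
  constructor <;> linarith [h1.1, h1.2, h2.1, h2.2]

/-- PROOF. `(x^i be⁻¹ x^j) = (x^(-j) be x^(-i))⁻¹`; substitute `(i, j) ↦ (-j, -i)`. -/
theorem avg_odd {x : B} {f : B → ℝ} (hf : Odd1 f) (th : ℝ) (N : ℕ) (be : B) :
    avg x f th N be⁻¹ = - avg x f th N be := by
  have key : ∀ i j : ℤ, f (x ^ i * be⁻¹ * x ^ j) - th * ((i : ℝ) + (j : ℝ)) =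
      -(f (x ^ (-j) * be * x ^ (-i)) - th * (((-j : ℤ) : ℝ) + ((-i : ℤ) : ℝ))) := by
    intro i j
    have h1 : x ^ i * be⁻¹ * x ^ j = (x ^ (-j) * be * x ^ (-i))⁻¹ := by
      simp only [mul_inv_rev, zpow_neg, inv_inv, mul_assoc]
    rw [h1, hf.odd]
    push_cast
    ring
  unfold avg
  rw [← neg_div]
  congr 1
  simp only [key, Finset.sum_neg_distrib]
  congr 1
  have h2 : ∀ i : ℤ, ∑ j ∈ Finset.Icc (-(N : ℤ)) N,
      (f (x ^ (-j) * be * x ^ (-i)) - th * (((-j : ℤ) : ℝ) + ((-i : ℤ) : ℝ))) =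
      ∑ j ∈ Finset.Icc (-(N : ℤ)) N,
      (f (x ^ j * be * x ^ (-i)) - th * ((j : ℝ) + ((-i : ℤ) : ℝ))) := fun i =>
    AvgFin_neg N (fun j => f (x ^ j * be * x ^ (-i)) - th * ((j : ℝ) + ((-i : ℤ) : ℝ)))
  simp only [h2]
  rw [AvgFin_neg N (fun i => ∑ j ∈ Finset.Icc (-(N : ℤ)) N,
      (f (x ^ j * be * x ^ i) - th * ((j : ℝ) + (i : ℝ))))]
  rw [Finset.sum_comm]

/-- PROOF. `(2N+1)` times the sum of `f (x^i al x^j) - th (i+j)` over `i, j` plus the sum of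
`f (x^(-j) be x^l) - th (-j+l)` over `j, l` minus the sum of `f (x^i al be x^l) - th (i+l)` over
`i, l` is the sum over `i, j, l` of `f u + f v - f (u v)` with `u = x^i al x^j`,
`v = x^(-j) be x^l`; each term is in `[-1, 1]`. -/
theorem avg_defect {x : B} {f : B → ℝ} (hf : Odd1 f) (th : ℝ) (N : ℕ) (al be : B) :
    |avg x f th N al + avg x f th N be - avg x f th N (al * be)| ≤ 1 := by
  set S := Finset.Icc (-(N : ℤ)) N with hS
  have hc : ((S.card : ℕ) : ℝ) = 2 * (N : ℝ) + 1 := AvgFin_card N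
  set M : ℝ := 2 * (N : ℝ) + 1 with hM
  have hM0 : 0 < M := by positivity
  set A : ℤ → ℤ → ℝ := fun i j => f (x ^ i * al * x ^ j) - th * ((i : ℝ) + (j : ℝ)) with hA
  set C : ℤ → ℤ → ℝ := fun i j => f (x ^ i * be * x ^ j) - th * ((i : ℝ) + (j : ℝ)) with hC
  set D : ℤ → ℤ → ℝ := fun i j => f (x ^ i * (al * be) * x ^ j) - th * ((i : ℝ) + (j : ℝ))
    with hD
  have e0 : avg x f th N al + avg x f th N be - avg x f th N (al * be) =
      ((∑ i ∈ S, ∑ j ∈ S, A i j) + (∑ i ∈ S, ∑ j ∈ S, C i j) - ∑ i ∈ S, ∑ j ∈ S, D i j)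
        / M ^ 2 := by
    unfold avg
    rw [← add_div, ← sub_div]
  have e1 : ∑ i ∈ S, ∑ j ∈ S, ∑ l ∈ S, (A i j + C (-j) l - D i l) =
      M * ((∑ i ∈ S, ∑ j ∈ S, A i j) + (∑ i ∈ S, ∑ j ∈ S, C i j)
        - ∑ i ∈ S, ∑ j ∈ S, D i j) := by
    have t1 : ∑ i ∈ S, ∑ j ∈ S, ∑ l ∈ S, A i j = M * ∑ i ∈ S, ∑ j ∈ S, A i j := by
      simp only [Finset.sum_const, nsmul_eq_mul, hc, Finset.mul_sum]
    have t2 : ∑ i ∈ S, ∑ j ∈ S, ∑ l ∈ S, C (-j) l = M * ∑ i ∈ S, ∑ j ∈ S, C i j := by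
      rw [Finset.sum_const, nsmul_eq_mul, hc, AvgFin_neg N (fun j => ∑ l ∈ S, C j l)]
    have t3 : ∑ i ∈ S, ∑ j ∈ S, ∑ l ∈ S, D i l = M * ∑ i ∈ S, ∑ j ∈ S, D i j := by
      simp only [Finset.sum_const, nsmul_eq_mul, hc, Finset.mul_sum]
    simp only [Finset.sum_sub_distrib, Finset.sum_add_distrib, t1, t2, t3]
    ring
  have e2 : ∀ i j l : ℤ, |A i j + C (-j) l - D i l| ≤ 1 := by
    intro i j l
    have h1 := hf.defect (x ^ i * al * x ^ j) (x ^ (-j) * be * x ^ l)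
    have h2 : x ^ i * al * x ^ j * (x ^ (-j) * be * x ^ l) = x ^ i * (al * be) * x ^ l := by
      rw [zpow_neg]
      group
    rw [h2] at h1
    have h3 : A i j + C (-j) l - D i l = f (x ^ i * al * x ^ j) + f (x ^ (-j) * be * x ^ l)
        - f (x ^ i * (al * be) * x ^ l) := by
      simp only [hA, hC, hD]
      push_cast
      ring
    rw [h3]
    exact h1
  have e3 : |∑ i ∈ S, ∑ j ∈ S, ∑ l ∈ S, (A i j + C (-j) l - D i l)| ≤ M * (M * (M * 1)) := by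
    refine (Finset.abs_sum_le_sum_abs _ _).trans ?_
    rw [← hc, ← nsmul_eq_mul]
    refine Finset.sum_le_card_nsmul _ _ _ (fun i _ => ?_)
    refine (Finset.abs_sum_le_sum_abs _ _).trans ?_
    rw [← nsmul_eq_mul]
    refine Finset.sum_le_card_nsmul _ _ _ (fun j _ => ?_)
    refine (Finset.abs_sum_le_sum_abs _ _).trans ?_
    rw [← nsmul_eq_mul]
    exact Finset.sum_le_card_nsmul _ _ _ (fun l _ => e2 i j l)
  rw [e1, abs_mul, abs_of_pos hM0] at e3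
  have e4 := le_of_mul_le_mul_left e3 hM0
  rw [e0, abs_div, abs_of_pos (by positivity : 0 < M ^ 2), div_le_one (by positivity)]
  calc _ ≤ M * (M * 1) := e4
    _ = M ^ 2 := by ring

/-- PROOF. `|f (x^i be x^j) - f (x^i) - f be - f (x^j)| ≤ 2` and `|f (x^i) - th i| ≤ C`. -/
theorem avg_close {x : B} {f : B → ℝ} (hf : Odd1 f) (th C : ℝ)
    (hC : ∀ n : ℤ, |f (x ^ n) - th * (n : ℝ)| ≤ C) (N : ℕ) (be : B) :
    |avg x f th N be - f be| ≤ 2 + 2 * C := by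
  set S := Finset.Icc (-(N : ℤ)) N with hS
  have hc : ((S.card : ℕ) : ℝ) = 2 * (N : ℝ) + 1 := AvgFin_card N
  set M : ℝ := 2 * (N : ℝ) + 1 with hM
  have hM0 : 0 < M := by positivity
  have e1 : avg x f th N be - f be =
      (∑ i ∈ S, ∑ j ∈ S, (f (x ^ i * be * x ^ j) - th * ((i : ℝ) + (j : ℝ)) - f be)) / M ^ 2 := by
    have t1 : ∑ i ∈ S, ∑ j ∈ S, (f (x ^ i * be * x ^ j) - th * ((i : ℝ) + (j : ℝ)) - f be) =
        (∑ i ∈ S, ∑ j ∈ S, (f (x ^ i * be * x ^ j) - th * ((i : ℝ) + (j : ℝ))))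
          - M ^ 2 * f be := by
      simp only [Finset.sum_sub_distrib, Finset.sum_const, nsmul_eq_mul, hc]
      ring
    have t2 : avg x f th N be =
        (∑ i ∈ S, ∑ j ∈ S, (f (x ^ i * be * x ^ j) - th * ((i : ℝ) + (j : ℝ)))) / M ^ 2 := rfl
    rw [t1, t2, sub_div, mul_div_cancel_left₀ _ (by positivity : M ^ 2 ≠ 0)]
  have e2 : ∀ i j : ℤ,
      |f (x ^ i * be * x ^ j) - th * ((i : ℝ) + (j : ℝ)) - f be| ≤ 2 + 2 * C := by
    intro i j
    have h1 := AvgFin_three (x := x) hf be i j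
    have h2 := hC i
    have h3 := hC j
    rw [abs_le] at h1 h2 h3 ⊢
    constructor <;> linarith [h1.1, h1.2, h2.1, h2.2, h3.1, h3.2]
  have e3 : |∑ i ∈ S, ∑ j ∈ S, (f (x ^ i * be * x ^ j) - th * ((i : ℝ) + (j : ℝ)) - f be)| ≤
      M * (M * (2 + 2 * C)) := by
    refine (Finset.abs_sum_le_sum_abs _ _).trans ?_
    rw [← hc, ← nsmul_eq_mul]
    refine Finset.sum_le_card_nsmul _ _ _ (fun i _ => ?_)
    refine (Finset.abs_sum_le_sum_abs _ _).trans ?_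
    rw [← nsmul_eq_mul]
    exact Finset.sum_le_card_nsmul _ _ _ (fun j _ => e2 i j)
  rw [e1, abs_div, abs_of_pos (by positivity : 0 < M ^ 2), div_le_iff₀ (by positivity)]
  calc _ ≤ M * (M * (2 + 2 * C)) := e3
    _ = (2 + 2 * C) * M ^ 2 := by ring

/-- PROOF. With `h i j = f (x^i be x^j) - th (i + j)` (so that
`f (x^i (x be) x^j) - th (i + j) = h (i+1) j + th`) the difference is
`∑_j (h (N+1) j - h (-N) j) / (2N+1)^2` and `|h| ≤ |f be| + 2 + 2 C`. -/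
theorem avg_shift_left {x : B} {f : B → ℝ} (hf : Odd1 f) (th C : ℝ)
    (hC : ∀ n : ℤ, |f (x ^ n) - th * (n : ℝ)| ≤ C) (N : ℕ) (be : B) :
    |avg x f th N (x * be) - (th + avg x f th N be)| ≤
      2 * (|f be| + 2 + 2 * C) / (2 * (N : ℝ) + 1) := by
  set S := Finset.Icc (-(N : ℤ)) N with hS
  have hc : ((S.card : ℕ) : ℝ) = 2 * (N : ℝ) + 1 := AvgFin_card N
  set M : ℝ := 2 * (N : ℝ) + 1 with hM
  have hM0 : 0 < M := by positivity
  set h : ℤ → ℤ → ℝ := fun i j => f (x ^ i * be * x ^ j) - th * ((i : ℝ) + (j : ℝ)) with hh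
  have e1 : avg x f th N (x * be) - (th + avg x f th N be) =
      (∑ j ∈ S, (h ((N : ℤ) + 1) j - h (-(N : ℤ)) j)) / M ^ 2 := by
    have t0 : ∀ i j : ℤ, f (x ^ i * (x * be) * x ^ j) - th * ((i : ℝ) + (j : ℝ)) =
        h (i + 1) j + th := by
      intro i j
      have : x ^ i * (x * be) * x ^ j = x ^ (i + 1) * be * x ^ j := by
        rw [zpow_add_one]
        group
      simp only [hh, this]
      push_cast
      ring
    have t1 : ∑ j ∈ S, (h ((N : ℤ) + 1) j - h (-(N : ℤ)) j) =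
        ∑ i ∈ S, ∑ j ∈ S, (h (i + 1) j - h i j) := by
      rw [Finset.sum_comm]
      refine Finset.sum_congr rfl (fun j _ => ?_)
      exact (AvgFin_tele N (fun i => h i j)).symm
    have t2 : ∑ i ∈ S, ∑ j ∈ S, (h (i + 1) j - h i j) =
        (∑ i ∈ S, ∑ j ∈ S, (h (i + 1) j + th)) - (∑ i ∈ S, ∑ j ∈ S, h i j) - M ^ 2 * th := by
      simp only [Finset.sum_sub_distrib, Finset.sum_add_distrib, Finset.sum_const, nsmul_eq_mul,
        hc]
      ring
    rw [t1, t2]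
    unfold avg
    simp only [t0]
    field_simp
    ring
  have e2 : ∀ i j : ℤ, |h i j| ≤ |f be| + 2 + 2 * C := by
    intro i j
    have h1 := AvgFin_three (x := x) hf be i j
    have h2 := hC i
    have h3 := hC j
    have h4 := abs_nonneg (f be)
    have h5 := le_abs_self (f be)
    have h6 := neg_abs_le (f be)
    simp only [hh]
    rw [abs_le] at h1 h2 h3 ⊢
    constructor <;> linarith [h1.1, h1.2, h2.1, h2.2, h3.1, h3.2]
  have e3 : |∑ j ∈ S, (h ((N : ℤ) + 1) j - h (-(N : ℤ)) j)| ≤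
      M * (2 * (|f be| + 2 + 2 * C)) := by
    refine (Finset.abs_sum_le_sum_abs _ _).trans ?_
    rw [← hc, ← nsmul_eq_mul]
    refine Finset.sum_le_card_nsmul _ _ _ (fun j _ => ?_)
    have h1 := e2 ((N : ℤ) + 1) j
    have h2 := e2 (-(N : ℤ)) j
    refine (abs_sub _ _).trans ?_
    linarith
  rw [e1, abs_div, abs_of_pos (by positivity : 0 < M ^ 2), div_le_div_iff₀ (by positivity) hM0]
  calc _ ≤ M * (2 * (|f be| + 2 + 2 * C)) * M := by
        exact mul_le_mul_of_nonneg_right e3 hM0.le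
    _ = 2 * (|f be| + 2 + 2 * C) * M ^ 2 := by ring

end SclIrr.Q
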