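import Pool.Agent.Lib.MP_ed1a61_al_Q.Defs

/-!
# Irrational scl, block Q: the commutator length bound
-/

set_option autoImplicit false

namespace SclIrr.Q

variable {G : Type} [Group G] {f : G → ℝ}

/-- PROOF. `odd` at `1`. -/
theorem Odd1.one (hf : Odd1 f) : f 1 = 0 := by
  have h := hf.odd 1
  rw [inv_one] at h
  linarith

/-- The pullback of an `Odd1` function.  PROOF. Direct. -/
theorem Odd1.comp {G' : Type} [Group G'] (hf : Odd1 f) (h : G' →* G) :
    Odd1 (fun x => f (h x)) := by
  refine ⟨fun x => ?_, fun x y => ?_⟩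
  · show f (h x⁻¹) = -f (h x)
    rw [map_inv, hf.odd]
  · show |f (h x) + f (h y) - f (h (x * y))| ≤ 1
    rw [map_mul]
    exact hf.defect _ _

/-- A product of `k` commutators has value at most `4 k`.

PROOF. `f ⁅x, y⁆ ≤ 3`: three junctions, and `f x + f y + f x⁻¹ + f y⁻¹ = 0`.  Induction on the
list: `f (c * p) ≤ f c + f p + 1 ≤ 3 + 4 k + 1`; empty list: `f 1 = 0`. -/
theorem Odd1.cl_bound (hf : Odd1 f) (l : List G) (hl : ∀ c ∈ l, c ∈ commutatorSet G) :
    f l.prod ≤ 4 * (l.length : ℝ) := by
  have hd : ∀ x y, f (x * y) ≤ f x + f y + 1 := fun x y => by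
    have h := (abs_le.1 (hf.defect x y)).1
    linarith
  have hc : ∀ c ∈ commutatorSet G, f c ≤ 3 := by
    rintro c ⟨x, y, rfl⟩
    rw [commutatorElement_def]
    have h1 := hd (x * y * x⁻¹) y⁻¹
    have h2 := hd (x * y) x⁻¹
    have h3 := hd x y
    rw [hf.odd] at h1 h2
    linarith
  induction l with
  | nil =>
    rw [List.prod_nil, hf.one]
    simp
  | cons c l ih =>
    have h1 := hc c (hl c List.mem_cons_self)
    have h2 := ih fun d hd' => hl d (List.mem_cons_of_mem c hd')
    have h3 := hd c l.prod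
    rw [List.prod_cons, List.length_cons]
    push_cast
    linarith

end SclIrr.Q
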