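import Pool.Agent.Lib.MP_ed1a61_al_Q.Tri

/-!
# Irrational scl, block Q: corner functions on a free group
-/

set_option autoImplicit false

namespace SclIrr.Q

open FreeGroup

/-- The inverse letter. -/
def linv {α : Type} (x : α × Bool) : α × Bool := (x.1, !x.2)

/-- Sum of the weights of consecutive pairs of a list. -/
def cs {β : Type} (κ : β → β → ℝ) : List β → ℝ
  | [] => 0
  | [_] => 0
  | x :: y :: l => κ x y + cs κ (y :: l)

theorem cs_append {β : Type} (κ : β → β → ℝ) (l m : List β) (x y : β) :
    cs κ ((l ++ [x]) ++ (y :: m)) = cs κ (l ++ [x]) + κ x y + cs κ (y :: m) := by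
  induction l with
  | nil => simp [cs]
  | cons z l ih =>
    cases l with
    | nil =>
      simp only [List.nil_append, List.cons_append, cs] at ih ⊢
      ring
    | cons w l =>
      simp only [List.cons_append, cs] at ih ⊢
      rw [ih]
      ring

private theorem Corner_linv {α : Type} (x : α × Bool) : linv (linv x) = x := by
  obtain ⟨a, b⟩ := x
  simp [linv]

private theorem Corner_invRev {α : Type} (x : α × Bool) (l : List (α × Bool)) :
    invRev (x :: l) = invRev l ++ [linv x] := by
  simp [invRev, linv]

private theorem Corner_invRev' {α : Type} (l : List (α × Bool)) (x : α × Bool) :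
    invRev (l ++ [x]) = linv x :: invRev l := by
  simp [invRev, linv]

private theorem Corner_red {α : Type} {x y : α × Bool} {l m : List (α × Bool)}
    (h : IsReduced ((l ++ [x]) ++ (y :: m))) : y ≠ linv x := by
  intro h1
  have h2 : IsReduced (x :: y :: m) := by
    have h3 : (l ++ [x]) ++ (y :: m) = l ++ (x :: y :: m) := by simp
    rw [h3] at h
    exact List.IsChain.right_of_append h
  rw [isReduced_cons_cons] at h2
  have h3 := h2.1 (by rw [h1]; rfl)
  rw [h1] at h3
  simp [linv] at h3

theorem cs_invRev {α : Type} (κ : α × Bool → α × Bool → ℝ)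
    (hodd : ∀ y z, z ≠ linv y → κ (linv z) (linv y) = - κ y z)
    (l : List (α × Bool)) (hl : IsReduced l) : cs κ (invRev l) = - cs κ l := by
  induction l with
  | nil => simp [invRev, cs]
  | cons x l ih =>
    cases l with
    | nil => simp [invRev, cs]
    | cons y l =>
      have h1 : y ≠ linv x := Corner_red (l := []) (m := l) hl
      have h2 : IsReduced (y :: l) := by
        rw [isReduced_cons_cons] at hl
        exact hl.2
      have h3 := ih h2
      rw [Corner_invRev x, Corner_invRev y, cs_append, ← Corner_invRev, h3, hodd _ _ h1]
      simp only [cs]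
      ring

private theorem Corner_cs_one {β : Type} (κ : β → β → ℝ) (x : β) : cs κ [x] = 0 := rfl

theorem odd1_corner {α : Type} [DecidableEq α] (κ : α × Bool → α × Bool → ℝ)
    (hodd : ∀ y z, z ≠ linv y → κ (linv z) (linv y) = - κ y z)
    (hb : ∀ y z, z ≠ linv y → |κ y z| ≤ 1)
    (htri : ∀ p g q : α × Bool, p ≠ g → g ≠ q → q ≠ p →
      |κ (linv p) g + κ (linv g) q + κ (linv q) p| ≤ 1) :
    Odd1 (fun x : FreeGroup α => cs κ x.toWord) := by
  have hinv : ∀ l : List (α × Bool), IsReduced l → cs κ (invRev l) = - cs κ l :=
    fun l hl => cs_invRev κ hodd l hl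
  refine ⟨fun x => ?_, fun x y => ?_⟩
  · show cs κ (x⁻¹).toWord = - cs κ x.toWord
    rw [toWord_inv, hinv _ isReduced_toWord]
  · show |cs κ x.toWord + cs κ y.toWord - cs κ (x * y).toWord| ≤ 1
    obtain ⟨p, g, q, h1, h2, h3⟩ := tripod x y
    have r1 : IsReduced (p ++ g) := h1 ▸ isReduced_toWord
    have r2 : IsReduced (invRev g ++ q) := h2 ▸ isReduced_toWord
    have r3 : IsReduced (p ++ q) := h3 ▸ isReduced_toWord
    have rg : IsReduced g := List.IsChain.right_of_append r1
    rw [h1, h2, h3]
    rcases List.eq_nil_or_concat' p with hp | ⟨p', P, hp⟩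
    · subst hp
      rcases g with _ | ⟨G, g'⟩
      · simp [invRev, cs]
      · rcases q with _ | ⟨Q, q'⟩
        · have h4 := hinv _ rg
          rw [List.append_nil, h4]
          simp [cs]
        · have h5 : Q ≠ linv (linv G) := by
            rw [Corner_invRev] at r2
            exact Corner_red r2
          rw [Corner_invRev, cs_append, ← Corner_invRev, hinv _ rg, List.nil_append,
            List.nil_append]
          have h6 := hb (linv G) Q h5
          rw [abs_le] at h6 ⊢
          constructor <;> linarith [h6.1, h6.2]
    · subst hp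
      rcases g with _ | ⟨G, g'⟩
      · rcases q with _ | ⟨Q, q'⟩
        · simp [invRev, cs]
        · have h5 : Q ≠ linv P := Corner_red r3
          have h6 := hb P Q h5
          have h7 : invRev ([] : List (α × Bool)) = [] := rfl
          rw [List.append_nil, h7, List.nil_append, cs_append]
          rw [abs_le] at h6 ⊢
          constructor <;> linarith [h6.1, h6.2]
      · have h5 : G ≠ linv P := Corner_red r1
        rcases q with _ | ⟨Q, q'⟩
        · rw [cs_append, List.append_nil, List.append_nil, hinv _ rg]
          have h6 := hb P G h5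
          rw [abs_le] at h6 ⊢
          constructor <;> linarith [h6.1, h6.2]
        · have h6 : Q ≠ linv (linv G) := by
            rw [Corner_invRev] at r2
            exact Corner_red r2
          have h7 : Q ≠ linv P := Corner_red r3
          rw [cs_append, cs_append, Corner_invRev, cs_append, ← Corner_invRev, hinv _ rg]
          have h8 := htri (linv P) G Q (fun h => h5 h.symm) (fun h => h6 (by rw [Corner_linv, h]))
            h7
          rw [Corner_linv] at h8
          have h9 := hodd P Q h7
          rw [h9] at h8
          rw [abs_le] at h8 ⊢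
          constructor <;> linarith [h8.1, h8.2]

end SclIrr.Q
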