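import Mathlib

/-!
# Irrational scl, block Q (lower bound): definitions

`Odd1 f`: `f` is odd and has defect at most one.  `KDat ph K rho`: what block 2.1-2.2 gives about
the substitution `ph` on signed lists and the function `K`.  `AmDat`: a group generated by groups
`G i` amalgamated over `H`, with a function `F` which is additive on reduced lists.
-/

set_option autoImplicit false

namespace SclIrr.Q

/-- Odd function with defect at most one. -/
structure Odd1 {G : Type} [Group G] (f : G → ℝ) : Prop where
  odd : ∀ x, f x⁻¹ = - f x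
  defect : ∀ x y, |f x + f y - f (x * y)| ≤ 1

/-- The facts about the substitution `ph` (on signed lists in two letters) and the function `K`
used here.  Letters: `(0, _)` is `a`, `(1, _)` is `b`; `(_, true)` positive,
`(_, false)` inverse. -/
structure KDat (ph : List (Fin 2 × Bool) → List (Fin 2 × Bool))
    (K : ℕ → List (Fin 2 × Bool) → ℕ → ℝ) (rho : ℝ) : Prop where
  app : ∀ L M, ph (L ++ M) = ph L ++ ph M
  inv : ∀ L, ph (FreeGroup.invRev L) = FreeGroup.invRev (ph L)
  red : ∀ L, FreeGroup.IsReduced L → FreeGroup.IsReduced (ph L)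
  inj : ∀ L M, FreeGroup.IsReduced L → FreeGroup.IsReduced M → ph L = ph M → L = M
  head : ∀ L, (ph L).head?.map Prod.snd = L.head?.map Prod.snd
  last : ∀ L, (ph L).getLast?.map Prod.snd = L.getLast?.map Prod.snd
  shift : ∀ i L j, K (i + 1) (ph L) (j + 1) = K i L j
  sup : ∀ i L j M k, K i L j + K j M k ≤ K i (L ++ M) k
  sub : ∀ i L j M k, K i (L ++ M) k ≤ K i L j + K j M k + 241
  subneg : ∀ i L j M k, L.getLast?.map Prod.snd = some false →
    M.head?.map Prod.snd = some false → K i (L ++ M) k ≤ K i L j + K j M k + 120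
  neg : ∀ i L j, L ≠ [] → (∀ x ∈ L, x.2 = false) → K i L j ≤ -120
  low : ∀ i L j, -120 ≤ K i L j
  ka : -rho ≤ K 0 [(0, true)] 0
  kb : ∀ n : ℕ, (n : ℝ) ≤ K 0 (List.replicate n (1, true)) 0
  kb' : ∀ n : ℕ, K 0 (List.replicate n (1, true)) 0 ≤ (n : ℝ) + 120

/-- A list of syllables is reduced: consecutive indices are different and no entry comes from
the amalgamated subgroup. -/
def RedL {ι : Type} {G : ι → Type} [∀ i, Group (G i)] {H : Type} [Group H]
    (φ : ∀ i, H →* G i) (l : List (Σ i, G i)) : Prop :=
  l.IsChain (fun s t => s.1 ≠ t.1) ∧ ∀ s ∈ l, s.2 ∉ (φ s.1).range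

/-- The product of the images of the syllables. -/
def valL {ι : Type} {G : ι → Type} [∀ i, Group (G i)] {GG : Type} [Group GG]
    (io : ∀ i, G i →* GG) (l : List (Σ i, G i)) : GG :=
  (l.map fun s => io s.1 s.2).prod

/-- The sum of the values of the syllables. -/
def sumL {ι : Type} {G : ι → Type} (f : ∀ i, G i → ℝ) (l : List (Σ i, G i)) : ℝ :=
  (l.map fun s => f s.1 s.2).sum

/-- `GG` is generated by the images of the `G i`, amalgamated over `H`; every element has a
reduced form and `F` is the sum over the syllables of any reduced form. -/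
structure AmDat {ι : Type} {G : ι → Type} [∀ i, Group (G i)] {H : Type} [Group H]
    (φ : ∀ i, H →* G i) (e : H → ℝ) (f : ∀ i, G i → ℝ) {GG : Type} [Group GG]
    (io : ∀ i, G i →* GG) (b : H →* GG) (F : GG → ℝ) : Prop where
  comp : ∀ i h, io i (φ i h) = b h
  gen : ∀ g : GG, ∃ l h, RedL φ l ∧ g = valL io l * b h
  val : ∀ l h, RedL φ l → F (valL io l * b h) = sumL f l + e h

end SclIrr.Q
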