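import Pool.Agent.Lib.MP_ed1a61_al_Q.Lower
import Pool.Agent.Lib.MP_ed1a61_al_W.Kdat
import Pool.Agent.Lib.MP_ed1a61_al_N.Hyp

/-!
# Irrational scl, block Q: consequences for the group `G`
-/

set_option autoImplicit false

namespace SclIrr.Q

open FreeGroup SclIrr

/-- The generators of a target group. -/
def uX {GG : Type} (iF : Fin 2 → GG) (iP : Fin 4 → GG) (t s : GG) : X → GG
  | X.a => iF 0
  | X.b => iF 1
  | X.t => t
  | X.s => s
  | X.c => iP 0
  | X.d => iP 1
  | X.e => iP 2
  | X.f => iP 3

variable {GG : Type} [Group GG]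

private theorem Glue_mk (u : Fin 2 → GG) (L : List (Fin 2 × Bool)) :
    FreeGroup.lift u (FreeGroup.mk L) = N.val u L := (N.val_eq_lift u L).symm

private theorem Glue_map {Z : Type} (u : X → GG) (em : Z → X) (L : List (Z × Bool)) :
    N.val u (L.map (Prod.map em id)) = N.val (u ∘ em) L := by
  unfold N.val
  rw [List.map_map]
  congr 1

private theorem Glue_append (u : X → GG) (L M : List (X × Bool)) :
    N.val u (L ++ M) = N.val u L * N.val u M := by
  simp [N.val]

private theorem Glue_invRev (u : X → GG) (L : List (X × Bool)) :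
    N.val u (FreeGroup.invRev L) = (N.val u L)⁻¹ := by
  rw [N.val_eq_lift, N.val_eq_lift, ← FreeGroup.inv_mk, _root_.map_inv]

theorem rel_one {iF : FreeGroup (Fin 2) →* GG} {iP : FreeGroup (Fin 4) →* GG} {t s : GG}
    (ht : ∀ x, t * iF x * t⁻¹ = iF (phi W.phS x)) (hs : s * s = 1)
    (hb : iF (of 1) ^ 6000 = cc (iP (of 0)) (iP (of 1)) (iP (of 2)) (iP (of 3))) (j : R) :
    N.val (uX (fun x => iF (of x)) (fun x => iP (of x)) t s) (rel j) = 1 := by
  set u := uX (fun x => iF (of x)) (fun x => iP (of x)) t s with hu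
  cases j with
  | tab y =>
    rw [rel, Glue_append, Glue_invRev, Glue_map]
    have h1 : u ∘ ab = fun x => iF (of x) := by
      funext x
      fin_cases x <;> rfl
    have h2 : FreeGroup.lift (fun x => iF (of x)) = iF := by
      ext x
      simp
    have h3 : N.val (u ∘ ab) (W.pos (W.phL y)) = iF (phi W.phS (of y)) := by
      rw [h1, ← Glue_mk, h2, phi, FreeGroup.lift_apply_of, W.phS, List.flatMap_singleton, W.phS1]
      simp
    rw [h3, ← ht]
    have h4 : u (ab y) = iF (of y) := congrFun h1 y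
    have h5 : u X.t = t := rfl
    simp only [N.val, List.map_cons, List.map_nil, List.prod_cons, List.prod_nil, N.lv, h4, h5,
      if_true, Bool.false_eq_true, if_false]
    group
  | ss =>
    have h5 : u X.s = s := rfl
    simp only [rel, N.val, List.map_cons, List.map_nil, List.prod_cons, List.prod_nil, N.lv, h5]
    simpa using hs
  | bx =>
    rw [rel, Glue_append, Glue_invRev, Glue_map]
    have h1 : N.val u (List.replicate mexp (X.b, true)) = iF (of 1) ^ 6000 := by
      have : u X.b = iF (of 1) := rfl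
      rw [N.val, List.map_replicate, List.prod_replicate, N.lv, if_pos rfl, this]
      rfl
    rw [h1, hb]
    have h2 : N.val (u ∘ cf) xW = cc (iP (of 0)) (iP (of 1)) (iP (of 2)) (iP (of 3)) := by
      have e0 : u (cf 0) = iP (of 0) := rfl
      have e1 : u (cf 1) = iP (of 1) := rfl
      have e2 : u (cf 2) = iP (of 2) := rfl
      have e3 : u (cf 3) = iP (of 3) := rfl
      simp only [N.val, xW, List.map_cons, List.map_nil, List.prod_cons, List.prod_nil, N.lv,
        Function.comp_apply, e0, e1, e2, e3, cc]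
      simp [mul_assoc]
    rw [h2, mul_inv_cancel]

/-- The free subgroups of `G` and the lower bound for the commutator length of powers of
`a s b s`. -/
theorem glue :
    Function.Injective (FreeGroup.lift (gam ∘ ab)) ∧
    Function.Injective (FreeGroup.lift (gam ∘ cf)) ∧
    ∃ C : ℝ, ∀ (n : ℕ) (l : List G), (∀ c ∈ l, c ∈ commutatorSet G) →
      l.prod = (gam X.a * gam X.s * gam X.b * gam X.s) ^ n →
      (n : ℝ) * (2 + (1 - W.rho) / 1000) - C ≤ 4 * (l.length : ℝ) := by
  obtain ⟨GG, _, iF, iP, t, s, F, hF, hiF, hiP, ht, hs, hb, C, hC⟩ := lower W.kdat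
  set u := uX (fun x => iF (of x)) (fun x => iP (of x)) t s with hu
  have hrel := rel_one ht hs hb
  have e1 : FreeGroup.lift (u ∘ ab) = iF := by
    ext x
    fin_cases x <;> simp [hu, uX, ab]
  have e2 : FreeGroup.lift (u ∘ cf) = iP := by
    ext x
    fin_cases x <;> simp [hu, uX, cf]
  refine ⟨N.lift_injective u hrel ab (by rw [e1]; exact hiF),
    N.lift_injective u hrel cf (by rw [e2]; exact hiP), C, fun n l hl hp => ?_⟩
  obtain ⟨Φ, hΦ⟩ := N.exists_hom u hrel
  have h1 := hC n
  have h2 : Φ ((gam X.a * gam X.s * gam X.b * gam X.s) ^ n) =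
      (iF (of 0) * s * iF (of 1) * s) ^ n := by
    rw [map_pow, Φ.map_mul, Φ.map_mul, Φ.map_mul, hΦ, hΦ, hΦ]
    rfl
  rw [← h2, ← hp, map_list_prod] at h1
  have h3 := hF.cl_bound (l.map Φ) (by
    intro c hc
    obtain ⟨c', hc', rfl⟩ := List.mem_map.1 hc
    obtain ⟨x, y, rfl⟩ := hl c' hc'
    exact ⟨Φ x, Φ y, by rw [map_commutatorElement]⟩)
  rw [List.length_map] at h3
  exact h1.trans h3

end SclIrr.Q
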