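import Pool.Agent.Lib.MP_ed1a61_al_Q.PsiSh

/-!
# Irrational scl, block Q: the defect of `psi`
-/

set_option autoImplicit false

namespace SclIrr.Q

open FreeGroup

variable {ph : List (Fin 2 × Bool) → List (Fin 2 × Bool)}
  {K : ℕ → List (Fin 2 × Bool) → ℕ → ℝ} {rho : ℝ}

private theorem B_bounds (hK : KDat ph K rho) (i : ℕ) (L : List (Fin 2 × Bool)) (j : ℕ)
    (M : List (Fin 2 × Bool)) (k : ℕ) :
    K i L j + K j M k - K i (L ++ M) k ≤ 0 ∧ -241 ≤ K i L j + K j M k - K i (L ++ M) k := by
  have h1 := hK.sup i L j M k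
  have h2 := hK.sub i L j M k
  constructor <;> linarith

private theorem SS_eq (i : ℕ) (L : List (Fin 2 × Bool)) (j : ℕ)
    (M : List (Fin 2 × Bool)) (k : ℕ) :
    SS K i L j + SS K j M k - SS K i (L ++ M) k =
      (K i L j + K j M k - K i (L ++ M) k) -
        (K k (invRev M) j + K j (invRev L) i - K k (invRev M ++ invRev L) i) := by
  unfold SS
  rw [invRev_append]
  ring

private theorem last_invRev (M : List (Fin 2 × Bool)) :
    (invRev M).getLast? = M.head?.map fun x => (x.1, !x.2) := by
  rw [invRev, List.getLast?_reverse, List.head?_map]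

private theorem head_invRev (M : List (Fin 2 × Bool)) :
    (invRev M).head? = M.getLast?.map fun x => (x.1, !x.2) := by
  rw [invRev, List.head?_reverse, List.getLast?_map]

private theorem map_not {o : Option (Fin 2 × Bool)} {b : Bool} (h : o.map Prod.snd = some b) :
    (o.map fun x => (x.1, !x.2)).map Prod.snd = some !b := by
  cases o with
  | none => simp at h
  | some x =>
    simp only [Option.map_some, Option.some.injEq] at h ⊢
    rw [h]

private theorem exists_last {L : List (Fin 2 × Bool)} (h : L ≠ []) :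
    ∃ u, L.getLast? = some u := by
  cases hL : L.getLast? with
  | none => exact absurd (List.getLast?_eq_none_iff.1 hL) h
  | some u => exact ⟨u, rfl⟩

private theorem exists_head {L : List (Fin 2 × Bool)} (h : L ≠ []) :
    ∃ u, L.head? = some u := by
  cases hL : L.head? with
  | none => exact absurd (List.head?_eq_none_iff.1 hL) h
  | some u => exact ⟨u, rfl⟩

private theorem sg_nil : sg [] = 0 := by simp [sg]

private theorem invRev_ne_nil {g : List (Fin 2 × Bool)} (h : g ≠ []) : invRev g ≠ [] := by
  intro h1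
  apply h
  rw [← invRev_invRev (L₁ := g), h1, invRev_empty]

/-- PROOF. `KDat.sup`, `KDat.sub` for `L ++ M` and for `invRev M ++ invRev L`. -/
theorem SS_app (hK : KDat ph K rho) (i : ℕ) (L : List (Fin 2 × Bool)) (j : ℕ)
    (M : List (Fin 2 × Bool)) (k : ℕ) :
    |SS K i L j + SS K j M k - SS K i (L ++ M) k| ≤ 241 := by
  rw [SS_eq]
  have h1 := B_bounds hK i L j M k
  have h2 := B_bounds hK k (invRev M) j (invRev L) i
  rw [abs_le]
  constructor <;> linarith [h1.1, h1.2, h2.1, h2.2]

/-- Junction with both letters positive: the second bracket is bounded by 120.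
PROOF. The last letter of `invRev M` and the first letter of `invRev L` are negative:
`KDat.subneg`; `KDat.sup` for `L ++ M`. -/
theorem SS_app_pos (hK : KDat ph K rho) (i : ℕ) (L : List (Fin 2 × Bool)) (j : ℕ)
    (M : List (Fin 2 × Bool)) (k : ℕ) (h1 : L.getLast?.map Prod.snd = some true)
    (h2 : M.head?.map Prod.snd = some true) :
    SS K i L j + SS K j M k - SS K i (L ++ M) k ≤ 120 := by
  rw [SS_eq]
  have h3 := B_bounds hK i L j M k
  have h4 := hK.subneg k (invRev M) j (invRev L) i
    (by rw [last_invRev]; exact map_not h2) (by rw [head_invRev]; exact map_not h1)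
  linarith [h3.1]

/-- Junction with both letters negative.  PROOF. The same, `KDat.subneg` for `L ++ M`. -/
theorem SS_app_neg (hK : KDat ph K rho) (i : ℕ) (L : List (Fin 2 × Bool)) (j : ℕ)
    (M : List (Fin 2 × Bool)) (k : ℕ) (h1 : L.getLast?.map Prod.snd = some false)
    (h2 : M.head?.map Prod.snd = some false) :
    -120 ≤ SS K i L j + SS K j M k - SS K i (L ++ M) k := by
  rw [SS_eq]
  have h3 := B_bounds hK k (invRev M) j (invRev L) i
  have h4 := hK.subneg i L j M k h1 h2
  linarith [h3.1]

/-- The reduced case: no cancellation between `x` and `y`.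

PROOF. `(x * y).toWord = L ++ M`, `L = x.toWord`, `M = y.toWord`.  `L = []` or `M = []`: the
`sg`-defect is `0`, `SS_app`.  Otherwise the `sg`-defect is
`(sgn (last L) + sgn (first M)) / 2 ∈ {1, 0, -1}`: use `SS_app_pos` (and `SS_app`), `SS_app`,
`SS_app_neg` (and `SS_app`). -/
theorem psi_defect_red (hK : KDat ph K rho) (i : ℕ) (x : FreeGroup (Fin 2)) (j : ℕ)
    (y : FreeGroup (Fin 2)) (k : ℕ) (h : (x * y).toWord = x.toWord ++ y.toWord) :
    |psi K i x j + psi K j y k - psi K i (x * y) k| ≤ 1 := by
  have hS := SS_app hK i x.toWord j y.toWord k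
  have e : psi K i x j + psi K j y k - psi K i (x * y) k =
      22 / 25 * (sg x.toWord + sg y.toWord - sg (x.toWord ++ y.toWord)) +
        1 / 1000 * (SS K i x.toWord j + SS K j y.toWord k -
          SS K i (x.toWord ++ y.toWord) k) := by
    unfold psi
    rw [h]
    ring
  rw [e]
  rw [abs_le] at hS
  by_cases hL : x.toWord = []
  · have e3 : sg x.toWord + sg y.toWord - sg (x.toWord ++ y.toWord) = 0 := by
      rw [hL, sg_nil, List.nil_append]
      ring
    rw [e3, abs_le]
    constructor <;> linarith [hS.1, hS.2]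
  by_cases hM : y.toWord = []
  · have e3 : sg x.toWord + sg y.toWord - sg (x.toWord ++ y.toWord) = 0 := by
      rw [hM, sg_nil, List.append_nil]
      ring
    rw [e3, abs_le]
    constructor <;> linarith [hS.1, hS.2]
  obtain ⟨u, hu⟩ := exists_last hL
  obtain ⟨v, hv⟩ := exists_head hM
  have e2 : sg x.toWord + sg y.toWord - sg (x.toWord ++ y.toWord) = (sgn u + sgn v) / 2 := by
    unfold sg
    rw [List.head?_append_of_ne_nil _ hL, List.getLast?_append_of_ne_nil _ hM, hu, hv]
    simp only [Option.elim_some]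
    ring
  rw [e2, abs_le]
  rcases Bool.eq_false_or_eq_true u.2 with h1 | h1 <;>
    rcases Bool.eq_false_or_eq_true v.2 with h2 | h2
  · have h3 := SS_app_pos hK i x.toWord j y.toWord k (by rw [hu]; simp [h1])
      (by rw [hv]; simp [h2])
    have h4 : sgn u = 1 := by simp [sgn, h1]
    have h5 : sgn v = 1 := by simp [sgn, h2]
    rw [h4, h5]
    constructor <;> linarith [hS.1, hS.2]
  · have h4 : sgn u = 1 := by simp [sgn, h1]
    have h5 : sgn v = -1 := by simp [sgn, h2]
    rw [h4, h5]
    constructor <;> linarith [hS.1, hS.2]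
  · have h4 : sgn u = -1 := by simp [sgn, h1]
    have h5 : sgn v = 1 := by simp [sgn, h2]
    rw [h4, h5]
    constructor <;> linarith [hS.1, hS.2]
  · have h3 := SS_app_neg hK i x.toWord j y.toWord k (by rw [hu]; simp [h1])
      (by rw [hv]; simp [h2])
    have h4 : sgn u = -1 := by simp [sgn, h1]
    have h5 : sgn v = -1 := by simp [sgn, h2]
    rw [h4, h5]
    constructor <;> linarith [hS.1, hS.2]

/-- PROOF. `tripod x y`: `x = p g`, `y = g⁻¹ q`, `x y = p q`.  `g = []`: `psi_defect_red`.
`g ≠ []`, `p = []`: `y = x⁻¹ (x y)` reduced; the defect is minus the defect of `(x⁻¹, x y)`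
(`psi_odd`, heights `j`, `i`, `k`).  `g ≠ []`, `q = []`: `x = (x y) y⁻¹` reduced, the same.  All
nonempty: the
`sg`-defect is `0` (the first letter of `invRev g` is the inverse of the last letter of `g`) and the
`SS`-defect is at most `3 * 241` by `SS_app` three times, with `SS K i g j = - SS K j (invRev g) i`
(any middle height, take `j`). -/
theorem psi_defect (hK : KDat ph K rho) (i : ℕ) (x : FreeGroup (Fin 2)) (j : ℕ)
    (y : FreeGroup (Fin 2)) (k : ℕ) :
    |psi K i x j + psi K j y k - psi K i (x * y) k| ≤ 1 := by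
  obtain ⟨p, g, q, hx, hy, hxy⟩ := tripod x y
  by_cases hg : g = []
  · subst hg
    rw [List.append_nil] at hx
    rw [invRev_empty, List.nil_append] at hy
    exact psi_defect_red hK i x j y k (by rw [hxy, hx, hy])
  by_cases hp : p = []
  · subst hp
    rw [List.nil_append] at hx hxy
    have h1 : (x⁻¹ * (x * y)).toWord = x⁻¹.toWord ++ (x * y).toWord := by
      rw [inv_mul_cancel_left, toWord_inv, hx, hxy, hy]
    have h2 := psi_defect_red hK j x⁻¹ i (x * y) k h1
    rw [inv_mul_cancel_left, psi_odd i x j] at h2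
    rw [abs_le] at h2 ⊢
    constructor <;> linarith [h2.1, h2.2]
  by_cases hq : q = []
  · subst hq
    rw [List.append_nil] at hy hxy
    have h1 : ((x * y) * y⁻¹).toWord = (x * y).toWord ++ y⁻¹.toWord := by
      rw [mul_inv_cancel_right, toWord_inv, hx, hxy, hy, invRev_invRev]
    have h2 := psi_defect_red hK i (x * y) k y⁻¹ j h1
    rw [mul_inv_cancel_right, psi_odd j y k] at h2
    rw [abs_le] at h2 ⊢
    constructor <;> linarith [h2.1, h2.2]
  have hg' := invRev_ne_nil hg
  have s1 := SS_app hK i p j g j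
  have s2 := SS_app hK j (invRev g) j q k
  have s3 := SS_app hK i p j q k
  have s4 : SS K j (invRev g) j = - SS K j g j := by
    unfold SS
    rw [invRev_invRev]
    ring
  obtain ⟨u, hu⟩ := exists_last hg
  have hu' : (invRev g).head? = some (u.1, !u.2) := by
    rw [head_invRev, hu, Option.map_some]
  have e2 : sg (p ++ g) + sg (invRev g ++ q) - sg (p ++ q) = 0 := by
    unfold sg
    rw [List.head?_append_of_ne_nil _ hp, List.getLast?_append_of_ne_nil _ hg,
      List.head?_append_of_ne_nil _ hg', List.getLast?_append_of_ne_nil _ hq,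
      List.head?_append_of_ne_nil _ hp, List.getLast?_append_of_ne_nil _ hq, hu, hu']
    simp only [Option.elim_some]
    have h6 : sgn (u.1, !u.2) = - sgn u := by
      rcases Bool.eq_false_or_eq_true u.2 with h1 | h1 <;> simp [sgn, h1]
    rw [h6]
    ring
  have e : psi K i x j + psi K j y k - psi K i (x * y) k =
      22 / 25 * (sg (p ++ g) + sg (invRev g ++ q) - sg (p ++ q)) +
        1 / 1000 * (SS K i (p ++ g) j + SS K j (invRev g ++ q) k - SS K i (p ++ q) k) := by
    unfold psi
    rw [hx, hy, hxy]
    ring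
  rw [e, e2]
  rw [abs_le] at s1 s2 s3 ⊢
  constructor <;> linarith [s1.1, s1.2, s2.1, s2.2, s3.1, s3.2]

end SclIrr.Q
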