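import Pool.Agent.Lib.MP_ed1a61_al_Q.Hnn
import Pool.Agent.Lib.MP_ed1a61_al_Q.PsiDef

/-!
# Irrational scl, block Q: the group `A` with its function
-/

set_option autoImplicit false

namespace SclIrr.Q

open FreeGroup

variable {ph : List (Fin 2 × Bool) → List (Fin 2 × Bool)}
  {K : ℕ → List (Fin 2 × Bool) → ℕ → ℝ} {rho : ℝ}

/-- PROOF. `hnn_exists (phi ph)`; `iF x = mkA 0 x 0`, `t = mkA 0 1 1`;
`t (iF x) t⁻¹ = mkA 1 (phi (phi x)) 1 = iF (phi x)`; injective: `mkA 0 x 0 = mkA 0 y 0` gives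
`m = n`, `phi^m x = phi^m y`, `phi_injective`.  `g z := psi K i x j` for a chosen
`z = mkA i x j`; by the last field and `psi_shift` (iterated) `g (mkA i x j) = psi K i x j` for all
`i x j`.  Odd: `psi_odd`.  Defect: `mkA i x j * mkA k y l = mkA (i+k) (φ^k x * φ^j y) (j+l)` with
`mkA i x j = mkA (i+k) (φ^k x) (j+k)` and `mkA k y l = mkA (k+j) (φ^j y) (l+j)`: `psi_defect` with
heights `i+k`, `j+k`, `l+j`. -/
theorem grpA (hK : KDat ph K rho) :
    ∃ (A : Type) (_ : Group A) (iF : FreeGroup (Fin 2) →* A) (t : A) (g : A → ℝ),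
      Odd1 g ∧ Function.Injective iF ∧ (∀ x, t * iF x * t⁻¹ = iF (phi ph x)) ∧
      1 - rho / 1000 ≤ g (iF (of 0)) ∧ 1 + 1 / 1000 ≤ g (iF (of 1)) ∧
      ∀ n : ℤ, |g (iF (of 1) ^ n) - (1 / 1000) * (n : ℝ)| ≤ 2 := by
  obtain ⟨A, hA, mkA, hmul, hone, hsh, hinv, hrep, heq⟩ := hnn_exists (phi ph)
  have hps : ∀ (m i : ℕ) (x : FreeGroup (Fin 2)) (j : ℕ),
      psi K (i + m) ((phi ph)^[m] x) (j + m) = psi K i x j := by
    intro m
    induction m with
    | zero => intro i x j; rfl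
    | succ m ih =>
      intro i x j
      rw [Function.iterate_succ_apply', ← add_assoc, ← add_assoc, psi_shift hK, ih]
  have hshm : ∀ (m i : ℕ) (x : FreeGroup (Fin 2)) (j : ℕ),
      mkA (i + m) ((phi ph)^[m] x) (j + m) = mkA i x j := by
    intro m
    induction m with
    | zero => intro i x j; rfl
    | succ m ih =>
      intro i x j
      rw [Function.iterate_succ_apply', ← add_assoc, ← add_assoc, hsh, ih]
  have hwd : ∀ (i : ℕ) (x : FreeGroup (Fin 2)) (j k : ℕ) (y : FreeGroup (Fin 2)) (l : ℕ),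
      mkA i x j = mkA k y l → psi K i x j = psi K k y l := by
    intro i x j k y l h
    obtain ⟨m, n, h1, h2, h3⟩ := heq i x j k y l h
    rw [← hps m i x j, ← hps n k y l, h1, h2, h3]
  choose ci cx cj hc using hrep
  have hg : ∀ (i : ℕ) (x : FreeGroup (Fin 2)) (j : ℕ),
      psi K (ci (mkA i x j)) (cx (mkA i x j)) (cj (mkA i x j)) = psi K i x j :=
    fun i x j => hwd _ _ _ _ _ _ (hc _).symm
  have hodd : ∀ z : A, psi K (ci z⁻¹) (cx z⁻¹) (cj z⁻¹) = - psi K (ci z) (cx z) (cj z) := by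
    intro z
    have h1 : z⁻¹ = mkA (cj z) (cx z)⁻¹ (ci z) := by
      conv_lhs => rw [hc z]
      exact hinv _ _ _
    rw [h1, hg, psi_odd]
  refine ⟨A, hA, { toFun := fun x => mkA 0 x 0, map_one' := hone, map_mul' := fun x y => ?_ },
    mkA 0 1 1, fun z => psi K (ci z) (cx z) (cj z), ⟨hodd, fun z w => ?_⟩, fun x y h => ?_,
    fun x => ?_, ?_, ?_, fun n => ?_⟩
  · exact (hmul 0 x 0 0 y 0).symm
  · have h1 : z = mkA (ci z + ci w) ((phi ph)^[ci w] (cx z)) (cj z + ci w) := by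
      rw [hshm]
      exact hc z
    have h2 : w = mkA (ci w + cj z) ((phi ph)^[cj z] (cx w)) (cj w + cj z) := by
      rw [hshm]
      exact hc w
    have h3 : z * w = mkA (ci z + ci w) ((phi ph)^[ci w] (cx z) * (phi ph)^[cj z] (cx w))
        (cj z + cj w) := by
      rw [← hmul, ← hc z, ← hc w]
    have e1 := hg (ci z + ci w) ((phi ph)^[ci w] (cx z)) (cj z + ci w)
    have e2 := hg (ci w + cj z) ((phi ph)^[cj z] (cx w)) (cj w + cj z)
    have e3 := hg (ci z + ci w) ((phi ph)^[ci w] (cx z) * (phi ph)^[cj z] (cx w))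
      (cj z + cj w)
    rw [← h1] at e1
    rw [← h2] at e2
    rw [← h3] at e3
    have h4 := psi_defect hK (ci z + ci w) ((phi ph)^[ci w] (cx z)) (cj z + ci w)
      ((phi ph)^[cj z] (cx w)) (cj z + cj w)
    rw [add_comm (ci w) (cj z), add_comm (cj w) (cj z)] at e2
    show |psi K (ci z) (cx z) (cj z) + psi K (ci w) (cx w) (cj w) -
      psi K (ci (z * w)) (cx (z * w)) (cj (z * w))| ≤ 1
    rw [e1, e2, e3]
    exact h4
  · have h' : mkA 0 x 0 = mkA 0 y 0 := h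
    obtain ⟨m, n, h1, -, h3⟩ := heq 0 x 0 0 y 0 h'
    have h4 : m = n := by omega
    rw [← h4] at h3
    exact ((phi_injective hK).iterate m) h3
  · show mkA 0 1 1 * mkA 0 x 0 * (mkA 0 1 1)⁻¹ = mkA 0 (phi ph x) 0
    rw [hinv, hmul, hmul, inv_one]
    have h1 : (phi ph)^[1] ((phi ph)^[0] 1 * (phi ph)^[1] x) * (phi ph)^[1 + 0] 1 =
        phi ph (phi ph x) := by
      show phi ph (1 * phi ph x) * phi ph 1 = phi ph (phi ph x)
      rw [one_mul, _root_.map_one, mul_one]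
    rw [h1]
    exact hsh 0 (phi ph x) 0
  · show 1 - rho / 1000 ≤ psi K (ci (mkA 0 (of 0) 0)) (cx (mkA 0 (of 0) 0))
      (cj (mkA 0 (of 0) 0))
    rw [hg]
    exact (psi_vals hK).1
  · show 1 + 1 / 1000 ≤ psi K (ci (mkA 0 (of 1) 0)) (cx (mkA 0 (of 1) 0))
      (cj (mkA 0 (of 1) 0))
    rw [hg]
    exact (psi_vals hK).2.1
  · have hpow : ∀ k : ℕ, mkA 0 (of 1) 0 ^ k = mkA 0 (of 1 ^ k) 0 := by
      intro k
      induction k with
      | zero => rw [pow_zero, pow_zero, hone]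
      | succ k ih =>
        rw [pow_succ, ih, pow_succ, hmul]
        rfl
    have hnat : ∀ k : ℕ, |psi K (ci (mkA 0 (of 1) 0 ^ k)) (cx (mkA 0 (of 1) 0 ^ k))
        (cj (mkA 0 (of 1) 0 ^ k)) - (1 / 1000) * (k : ℝ)| ≤ 2 := by
      intro k
      rw [hpow, hg]
      exact (psi_vals hK).2.2 k
    show |psi K (ci (mkA 0 (of 1) 0 ^ n)) (cx (mkA 0 (of 1) 0 ^ n))
        (cj (mkA 0 (of 1) 0 ^ n)) - (1 / 1000) * (n : ℝ)| ≤ 2
    rcases Int.eq_nat_or_neg n with ⟨k, rfl | rfl⟩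
    · rw [zpow_natCast, Int.cast_natCast]
      exact hnat k
    · rw [zpow_neg, zpow_natCast, hodd, Int.cast_neg, Int.cast_natCast]
      have h1 := hnat k
      rw [← abs_neg] at h1
      have h2 : -psi K (ci (mkA 0 (of 1) 0 ^ k)) (cx (mkA 0 (of 1) 0 ^ k))
          (cj (mkA 0 (of 1) 0 ^ k)) - 1 / 1000 * -(k : ℝ) =
          -(psi K (ci (mkA 0 (of 1) 0 ^ k)) (cx (mkA 0 (of 1) 0 ^ k))
          (cj (mkA 0 (of 1) 0 ^ k)) - 1 / 1000 * (k : ℝ)) := by ring
      rw [h2]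
      exact h1

end SclIrr.Q
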