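import Pool.Agent.Lib.MP_ed1a61_al_Q.AmalW
import Pool.Agent.Lib.MP_ed1a61_al_Q.AmalOdd

/-!
# Irrational scl, block Q: amalgam of two groups
-/

set_option autoImplicit false

namespace SclIrr.Q

section aux

variable {B P H : Type} [Group B] [Group P] [Group H]

private def Pair_G (B P : Type) : Bool → Type
  | false => B
  | true => P

private instance Pair_grp (B P : Type) [Group B] [Group P] : ∀ i, Group (Pair_G B P i)
  | false => inferInstanceAs (Group B)
  | true => inferInstanceAs (Group P)

private def Pair_φ (φB : H →* B) (φP : H →* P) : ∀ i, H →* Pair_G B P i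
  | false => φB
  | true => φP

private def Pair_f (fB : B → ℝ) (fP : P → ℝ) : ∀ i, Pair_G B P i → ℝ
  | false => fB
  | true => fP

private def Pair_L (x y : B) (z : P) : ℕ → List (Σ i, Pair_G B P i)
  | 0 => []
  | n + 1 => ⟨false, x⟩ :: ⟨true, z⟩ :: ⟨false, y⟩ :: ⟨true, z⟩ :: Pair_L x y z n

private theorem Pair_red (φB : H →* B) (φP : H →* P) {x y : B} {z : P} (hx : x ∉ φB.range)
    (hy : y ∉ φB.range) (hz : z ∉ φP.range) (n : ℕ) :
    RedL (Pair_φ φB φP) (Pair_L x y z n) := by
  induction n with
  | zero => exact ⟨List.isChain_nil, fun s hs => absurd hs List.not_mem_nil⟩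
  | succ n ih =>
    refine ⟨?_, ?_⟩
    · show List.IsChain _ (⟨false, x⟩ :: ⟨true, z⟩ :: ⟨false, y⟩ :: ⟨true, z⟩ :: Pair_L x y z n)
      rw [List.isChain_cons_cons, List.isChain_cons_cons, List.isChain_cons_cons]
      refine ⟨Bool.false_ne_true, Bool.false_ne_true.symm, Bool.false_ne_true, ?_⟩
      cases n with
      | zero => exact List.isChain_singleton _
      | succ n =>
        have h1 := ih.1
        show List.IsChain _ ((⟨true, z⟩ : Σ i, Pair_G B P i) :: ⟨false, x⟩ :: ⟨true, z⟩ ::
          ⟨false, y⟩ :: ⟨true, z⟩ :: Pair_L x y z n)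
        rw [List.isChain_cons_cons]
        exact ⟨Bool.false_ne_true.symm, h1⟩
    · intro s hs
      have hs' : s ∈ (⟨false, x⟩ :: ⟨true, z⟩ :: ⟨false, y⟩ :: ⟨true, z⟩ :: Pair_L x y z n :
          List (Σ i, Pair_G B P i)) := hs
      rcases List.mem_cons.1 hs' with rfl | hs'
      · exact hx
      rcases List.mem_cons.1 hs' with rfl | hs'
      · exact hz
      rcases List.mem_cons.1 hs' with rfl | hs'
      · exact hy
      rcases List.mem_cons.1 hs' with rfl | hs'
      · exact hz
      exact ih.2 s hs'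

private theorem Pair_val {GG : Type} [Group GG] (io : ∀ i, Pair_G B P i →* GG) (x y : B) (z : P)
    (n : ℕ) : valL io (Pair_L x y z n) = (io false x * io true z * io false y * io true z) ^ n := by
  induction n with
  | zero => rw [pow_zero]; rfl
  | succ n ih =>
    rw [pow_succ', ← ih]
    show io false x * (io true z * (io false y * (io true z * valL io (Pair_L x y z n)))) = _
    simp only [mul_assoc]

omit [Group B] [Group P] in
private theorem Pair_sum (fB : B → ℝ) (fP : P → ℝ) (x y : B) (z : P) (n : ℕ) :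
    sumL (Pair_f fB fP) (Pair_L x y z n) = n * (fB x + fP z + fB y + fP z) := by
  induction n with
  | zero => rw [Nat.cast_zero, zero_mul]; rfl
  | succ n ih =>
    have h1 : sumL (Pair_f fB fP) (Pair_L x y z (n + 1)) =
        fB x + (fP z + (fB y + (fP z + sumL (Pair_f fB fP) (Pair_L x y z n)))) := rfl
    rw [h1, ih]
    push_cast
    ring

private theorem Pair_one {ι : Type} {G : ι → Type} [∀ i, Group (G i)] {H : Type} [Group H]
    {φ : ∀ i, H →* G i} {e : H → ℝ} {f : ∀ i, G i → ℝ} {GG : Type} [Group GG]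
    {io : ∀ i, G i →* GG} {b : H →* GG} {F : GG → ℝ} (h : AmDat φ e f io b F)
    (e1 : e 1 = 0) (f1 : ∀ i, f i 1 = 0) (hl : ∀ i h x, f i (φ i h * x) = e h + f i x) (i : ι)
    (x : G i) : F (io i x) = f i x := by
  by_cases hx : x ∈ (φ i).range
  · obtain ⟨k, rfl⟩ := hx
    have h1 := h.val [] k ⟨List.isChain_nil, fun s hs => absurd hs List.not_mem_nil⟩
    have h2 := hl i k 1
    rw [mul_one, f1] at h2
    rw [h.comp, h2]
    have h3 : valL io ([] : List (Σ i, G i)) = 1 := rfl
    have h4 : sumL f ([] : List (Σ i, G i)) = 0 := rfl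
    rw [h3, h4, one_mul] at h1
    rw [h1]
    ring
  · have hred : RedL φ [⟨i, x⟩] := by
      refine ⟨List.isChain_singleton _, fun s hs => ?_⟩
      rw [List.mem_singleton] at hs
      rw [hs]
      exact hx
    have h1 := h.val [⟨i, x⟩] 1 hred
    have h3 : valL io [⟨i, x⟩] = io i x := by
      show io i x * 1 = io i x
      rw [mul_one]
    have h4 : sumL f [⟨i, x⟩] = f i x := by
      show f i x + 0 = f i x
      rw [add_zero]
    rw [h3, h4, map_one, mul_one, e1, add_zero] at h1
    exact h1

end aux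

/-- PROOF. `ι = Bool`, `G false = B`, `G true = P` (a definition by `Bool.rec` with the group
instance by cases), `GG = Monoid.PushoutI`, `amal_exists`, `amal_odd1`,
`Monoid.PushoutI.of_injective`.  `F (iB x) = fB x`: if `x = φB h` the list is `[]` and the element
`b h`, `fB (φB h) = e h + fB 1 = e h`; otherwise the list `[(false, x)]`.  The power: the list
`(List.replicate n [(false, x), (true, z), (false, y), (true, z)]).flatten` is reduced, its sum is
`n * (...)`. -/
theorem pair_amalgam {B P H : Type} [Group B] [Group P] [Group H]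
    (φB : H →* B) (φP : H →* P) (hB : Function.Injective φB) (hP : Function.Injective φP)
    (e : H → ℝ) (emul : ∀ h k, e (h * k) = e h + e k)
    (fB : B → ℝ) (fP : P → ℝ) (oB : Odd1 fB) (oP : Odd1 fP)
    (lB : ∀ h x, fB (φB h * x) = e h + fB x) (rB : ∀ h x, fB (x * φB h) = fB x + e h)
    (lP : ∀ h x, fP (φP h * x) = e h + fP x) (rP : ∀ h x, fP (x * φP h) = fP x + e h) :
    ∃ (GG : Type) (_ : Group GG) (iB : B →* GG) (iP : P →* GG) (F : GG → ℝ),
      Odd1 F ∧ Function.Injective iB ∧ Function.Injective iP ∧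
      (∀ h, iB (φB h) = iP (φP h)) ∧ (∀ x, F (iB x) = fB x) ∧ (∀ x, F (iP x) = fP x) ∧
      ∀ (x y : B) (z : P), x ∉ φB.range → y ∉ φB.range → z ∉ φP.range → ∀ n : ℕ,
        F ((iB x * iP z * iB y * iP z) ^ n) = n * (fB x + fP z + fB y + fP z) := by
  have e1 : e 1 = 0 := by
    have h := emul 1 1
    rw [mul_one] at h
    linarith
  have hfB1 : fB 1 = 0 := by
    have h := oB.odd 1
    rw [inv_one] at h
    linarith
  have hfP1 : fP 1 = 0 := by
    have h := oP.odd 1
    rw [inv_one] at h
    linarith
  have hφ : ∀ i, Function.Injective (Pair_φ φB φP i) := by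
    intro i
    cases i
    · exact hB
    · exact hP
  have hodd : ∀ i, Odd1 (Pair_f fB fP i) := by
    intro i
    cases i
    · exact oB
    · exact oP
  have hf1 : ∀ i, Pair_f fB fP i 1 = 0 := by
    intro i
    cases i
    · exact hfB1
    · exact hfP1
  have hl : ∀ i h x, Pair_f fB fP i (Pair_φ φB φP i h * x) = e h + Pair_f fB fP i x := by
    intro i
    cases i
    · exact lB
    · exact lP
  have hr : ∀ i h x, Pair_f fB fP i (x * Pair_φ φB φP i h) = Pair_f fB fP i x + e h := by
    intro i
    cases i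
    · exact rB
    · exact rP
  obtain ⟨F, hF⟩ := amal_exists (Pair_φ φB φP) hφ e (Pair_f fB fP) e1 hf1 hl hr
  have hone := Pair_one hF e1 hf1 hl
  refine ⟨Monoid.PushoutI (Pair_φ φB φP), inferInstance,
    Monoid.PushoutI.of (φ := Pair_φ φB φP) false, Monoid.PushoutI.of (φ := Pair_φ φB φP) true, F,
    amal_odd1 _ e _ hodd emul hl hr _ _ F hF, Monoid.PushoutI.of_injective hφ false,
    Monoid.PushoutI.of_injective hφ true, fun h => ?_, fun x => hone false x,
    fun x => hone true x, ?_⟩
  · exact (hF.comp false h).trans (hF.comp true h).symm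
  · intro x y z hx hy hz n
    have h1 := hF.val (Pair_L x y z n) 1 (Pair_red φB φP hx hy hz n)
    rw [Pair_val, Pair_sum, map_one, mul_one, e1, add_zero] at h1
    exact h1

end SclIrr.Q
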