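import Pool.Agent.Lib.MP_ed1a61_al_Q.GrpA
import Pool.Agent.Lib.MP_ed1a61_al_Q.Pair

/-!
# Irrational scl, block Q: the free product of `A` with a group of order two
-/

set_option autoImplicit false

namespace SclIrr.Q

open FreeGroup

variable {ph : List (Fin 2 × Bool) → List (Fin 2 × Bool)}
  {K : ℕ → List (Fin 2 × Bool) → ℕ → ℝ} {rho : ℝ}

/-- PROOF. `pair_amalgam` with `H = Unit` (or `PUnit`, trivial group), `e = 0`, `P = Multiplicative
(ZMod 2)`, `fP = 0`; `z` the generator; `iF (of 0) ≠ 1`, `iF (of 1) ≠ 1` by injectivity. -/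
theorem grpB (hK : KDat ph K rho) :
    ∃ (B : Type) (_ : Group B) (iF : FreeGroup (Fin 2) →* B) (t s : B) (g : B → ℝ),
      Odd1 g ∧ Function.Injective iF ∧ (∀ x, t * iF x * t⁻¹ = iF (phi ph x)) ∧ s * s = 1 ∧
      (∀ n : ℕ, (n : ℝ) * (2 + (1 - rho) / 1000) ≤
        g ((iF (of 0) * s * iF (of 1) * s) ^ n)) ∧
      ∀ n : ℤ, |g (iF (of 1) ^ n) - (1 / 1000) * (n : ℝ)| ≤ 2 := by
  obtain ⟨A, instA, iF, t, g, hg, hinj, ht, ha, hb, hbn⟩ := grpA hK
  obtain ⟨GG, instG, iB, iP, F, oF, injB, injP, -, FB, -, hpow⟩ :=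
    pair_amalgam (B := A) (P := Multiplicative (ZMod 2)) (H := Unit) 1 1
      (Function.injective_of_subsingleton _) (Function.injective_of_subsingleton _)
      (fun _ => 0) (by intro h k; norm_num) g (fun _ => 0) hg
      ⟨by intro x; norm_num, by intro x y; norm_num⟩
      (by intro h x; simp) (by intro h x; simp) (by intro h x; norm_num)
      (by intro h x; norm_num)
  have hne : ∀ i : Fin 2, iF (of i) ∉ (1 : Unit →* A).range := by
    rintro i ⟨u, hu⟩
    have h1 : iF (of i) = iF 1 := by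
      rw [_root_.map_one iF]
      exact hu.symm
    exact FreeGroup.of_ne_one i (hinj h1)
  have hz : (Multiplicative.ofAdd (1 : ZMod 2)) ∉
      (1 : Unit →* Multiplicative (ZMod 2)).range := by
    rintro ⟨u, hu⟩
    have h1 : (1 : Multiplicative (ZMod 2)) = Multiplicative.ofAdd (1 : ZMod 2) := hu
    exact absurd h1 (by decide)
  refine ⟨GG, instG, iB.comp iF, iB t, iP (Multiplicative.ofAdd (1 : ZMod 2)), F, oF,
    ?_, ?_, ?_, ?_, ?_⟩
  · rw [MonoidHom.coe_comp]
    exact injB.comp hinj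
  · intro x
    rw [MonoidHom.comp_apply, MonoidHom.comp_apply, ← _root_.map_inv, ← _root_.map_mul,
      ← _root_.map_mul, ht]
  · rw [← _root_.map_mul]
    have h1 : Multiplicative.ofAdd (1 : ZMod 2) * Multiplicative.ofAdd (1 : ZMod 2) = 1 := by
      decide
    rw [h1, _root_.map_one]
  · intro n
    rw [MonoidHom.comp_apply, MonoidHom.comp_apply, hpow _ _ _ (hne 0) (hne 1) hz n]
    refine mul_le_mul_of_nonneg_left ?_ (Nat.cast_nonneg n)
    linarith
  · intro n
    rw [MonoidHom.comp_apply, ← _root_.map_zpow, FB]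
    exact hbn n

end SclIrr.Q
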