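import Pool.Agent.Lib.MP_ed1a61_al_Q.Defs

/-!
# Irrational scl, block Q: the ascending HNN group
-/

set_option autoImplicit false

namespace SclIrr.Q

/-- The relation of the triples. -/
private def hnnRel {F : Type} [Group F] (φ : F →* F) : Setoid (ℕ × F × ℕ) where
  r a b := ∃ m n : ℕ, a.1 + m = b.1 + n ∧ a.2.2 + m = b.2.2 + n ∧ φ^[m] a.2.1 = φ^[n] b.2.1
  iseqv := by
    refine ⟨fun a => ⟨0, 0, rfl, rfl, rfl⟩, ?_, ?_⟩
    · rintro a b ⟨m, n, h1, h2, h3⟩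
      exact ⟨n, m, h1.symm, h2.symm, h3.symm⟩
    · rintro a b c ⟨m, n, h1, h2, h3⟩ ⟨m', n', h4, h5, h6⟩
      refine ⟨m + m', n + n', by omega, by omega, ?_⟩
      rw [add_comm m m', Function.iterate_add_apply, h3, ← Function.iterate_add_apply,
        add_comm m' n, Function.iterate_add_apply, h6, ← Function.iterate_add_apply]

private theorem hnn_rel_iff {F : Type} [Group F] (φ : F →* F) (a b : ℕ × F × ℕ) :
    (hnnRel φ).r a b ↔ ∃ m n : ℕ, a.1 + m = b.1 + n ∧ a.2.2 + m = b.2.2 + n ∧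
      φ^[m] a.2.1 = φ^[n] b.2.1 := Iff.rfl

/-- The product. -/
private def hnnMul {F : Type} [Group F] (φ : F →* F) (a b : ℕ × F × ℕ) : ℕ × F × ℕ :=
  (a.1 + b.1, φ^[b.1] a.2.1 * φ^[a.2.2] b.2.1, a.2.2 + b.2.2)

private theorem hnnMul_assoc {F : Type} [Group F] (φ : F →* F) (a b c : ℕ × F × ℕ) :
    hnnMul φ (hnnMul φ a b) c = hnnMul φ a (hnnMul φ b c) := by
  refine Prod.ext (add_assoc _ _ _) (Prod.ext ?_ (add_assoc _ _ _))
  change φ^[c.1] (φ^[b.1] a.2.1 * φ^[a.2.2] b.2.1) * φ^[a.2.2 + b.2.2] c.2.1 =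
    φ^[b.1 + c.1] a.2.1 * φ^[a.2.2] (φ^[c.1] b.2.1 * φ^[b.2.2] c.2.1)
  rw [iterate_map_mul, iterate_map_mul, mul_assoc, ← Function.iterate_add_apply,
    ← Function.iterate_add_apply, ← Function.iterate_add_apply, ← Function.iterate_add_apply,
    add_comm c.1 b.1, add_comm c.1 a.2.2]

private theorem hnnMul_rel {F : Type} [Group F] (φ : F →* F) {a a' b b' : ℕ × F × ℕ}
    (h : (hnnRel φ).r a a') (h' : (hnnRel φ).r b b') :
    (hnnRel φ).r (hnnMul φ a b) (hnnMul φ a' b') := by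
  rw [hnn_rel_iff] at h h' ⊢
  obtain ⟨m, n, h1, h2, h3⟩ := h
  obtain ⟨m', n', h4, h5, h6⟩ := h'
  refine ⟨m + m', n + n', ?_, ?_, ?_⟩
  · change a.1 + b.1 + (m + m') = a'.1 + b'.1 + (n + n')
    omega
  · change a.2.2 + b.2.2 + (m + m') = a'.2.2 + b'.2.2 + (n + n')
    omega
  · change φ^[m + m'] (φ^[b.1] a.2.1 * φ^[a.2.2] b.2.1) =
      φ^[n + n'] (φ^[b'.1] a'.2.1 * φ^[a'.2.2] b'.2.1)
    rw [iterate_map_mul, iterate_map_mul, ← Function.iterate_add_apply,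
      ← Function.iterate_add_apply, ← Function.iterate_add_apply,
      ← Function.iterate_add_apply]
    have e1 : m + m' + b.1 = m' + b.1 + m := by omega
    have e2 : n + n' + b'.1 = m' + b.1 + n := by omega
    have e3 : m + m' + a.2.2 = m + a.2.2 + m' := by omega
    have e4 : n + n' + a'.2.2 = m + a.2.2 + n' := by omega
    rw [e1, e2, e3, e4, Function.iterate_add_apply _ (m' + b.1) m, h3,
      Function.iterate_add_apply _ (m + a.2.2) m', h6, ← Function.iterate_add_apply,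
      ← Function.iterate_add_apply]

private theorem hnnInv_rel {F : Type} [Group F] (φ : F →* F) {a a' : ℕ × F × ℕ}
    (h : (hnnRel φ).r a a') :
    (hnnRel φ).r (a.2.2, a.2.1⁻¹, a.1) (a'.2.2, a'.2.1⁻¹, a'.1) := by
  rw [hnn_rel_iff] at h ⊢
  obtain ⟨m, n, h1, h2, h3⟩ := h
  refine ⟨m, n, h2, h1, ?_⟩
  change φ^[m] a.2.1⁻¹ = φ^[n] a'.2.1⁻¹
  rw [iterate_map_inv, iterate_map_inv, h3]

/-- The quotient. -/
private def HnnQ {F : Type} [Group F] (φ : F →* F) : Type := Quotient (hnnRel φ)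

private instance {F : Type} [Group F] (φ : F →* F) : Mul (HnnQ φ) :=
  ⟨Quotient.map₂ (hnnMul φ) fun _ _ h _ _ h' => hnnMul_rel φ h h'⟩

private instance {F : Type} [Group F] (φ : F →* F) : One (HnnQ φ) :=
  ⟨Quotient.mk (hnnRel φ) (0, 1, 0)⟩

private instance {F : Type} [Group F] (φ : F →* F) : Inv (HnnQ φ) :=
  ⟨Quotient.map (fun a => (a.2.2, a.2.1⁻¹, a.1)) fun _ _ h => hnnInv_rel φ h⟩

/-- The class of a triple. -/
private def hnnMk {F : Type} [Group F] (φ : F →* F) (a : ℕ × F × ℕ) : HnnQ φ :=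
  Quotient.mk (hnnRel φ) a

private theorem hnnMk_mul {F : Type} [Group F] (φ : F →* F) (a b : ℕ × F × ℕ) :
    hnnMk φ a * hnnMk φ b = hnnMk φ (hnnMul φ a b) := rfl

private theorem hnnMk_surj {F : Type} [Group F] (φ : F →* F) (z : HnnQ φ) :
    ∃ a, z = hnnMk φ a := by
  obtain ⟨a, ha⟩ := Quotient.exists_rep z
  exact ⟨a, ha.symm⟩

private theorem hnnMk_eq {F : Type} [Group F] (φ : F →* F) {a b : ℕ × F × ℕ} :
    hnnMk φ a = hnnMk φ b ↔ ∃ m n : ℕ, a.1 + m = b.1 + n ∧ a.2.2 + m = b.2.2 + n ∧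
      φ^[m] a.2.1 = φ^[n] b.2.1 :=
  Quotient.eq (r := hnnRel φ)

private instance {F : Type} [Group F] (φ : F →* F) : Group (HnnQ φ) :=
  Group.ofLeftAxioms
    (fun x y z => by
      obtain ⟨a, rfl⟩ := hnnMk_surj φ x
      obtain ⟨b, rfl⟩ := hnnMk_surj φ y
      obtain ⟨c, rfl⟩ := hnnMk_surj φ z
      rw [hnnMk_mul, hnnMk_mul, hnnMk_mul, hnnMk_mul, hnnMul_assoc])
    (fun x => by
      obtain ⟨a, rfl⟩ := hnnMk_surj φ x
      change hnnMk φ (hnnMul φ (0, 1, 0) a) = hnnMk φ a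
      refine congrArg _ (Prod.ext (zero_add _) (Prod.ext ?_ (zero_add _)))
      change φ^[a.1] 1 * a.2.1 = a.2.1
      rw [iterate_map_one, one_mul])
    (fun x => by
      obtain ⟨a, rfl⟩ := hnnMk_surj φ x
      change hnnMk φ (hnnMul φ (a.2.2, a.2.1⁻¹, a.1) a) = hnnMk φ (0, 1, 0)
      rw [hnnMk_eq]
      refine ⟨0, a.1 + a.2.2, ?_, ?_, ?_⟩
      · change a.2.2 + a.1 + 0 = 0 + (a.1 + a.2.2)
        omega
      · change a.1 + a.2.2 + 0 = 0 + (a.1 + a.2.2)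
        omega
      · change φ^[a.1] a.2.1⁻¹ * φ^[a.1] a.2.1 = φ^[a.1 + a.2.2] 1
        rw [iterate_map_inv, inv_mul_cancel, iterate_map_one])

/-- The group of all `t^(-i) x t^j`, `t x t⁻¹ = φ x`.

PROOF. `M` := structure with fields `i : ℕ`, `w : F`, `j : ℕ` and
`(i, x, j) (k, y, l) = (i + k, φ^k x * φ^j y, j + l)`, unit `(0, 1, 0)`: a monoid
(`φ^[k]` of a product by `Function.iterate`/`MonoidHom.iterate_map_mul`).  `z = (1, 1, 1)` is
central: `z (i, x, j) = (i + 1, φ x, j + 1) = (i, x, j) z`.  The relation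
`x ~ y ↔ ∃ m n, z^m x = z^n y` is a congruence (`Con M`); `A` := its quotient, a monoid, and
`(j, x⁻¹, i)` is inverse to `(i, x, j)` modulo `z^(i+j)`.  The last field is the definition of the
relation (`z^m (i, x, j) = (i + m, φ^m x, j + m)`). -/
theorem hnn_exists {F : Type} [Group F] (φ : F →* F) :
    ∃ (A : Type) (_ : Group A) (mkA : ℕ → F → ℕ → A),
      (∀ i x j k y l, mkA i x j * mkA k y l = mkA (i + k) (φ^[k] x * φ^[j] y) (j + l)) ∧
      mkA 0 1 0 = 1 ∧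
      (∀ i x j, mkA (i + 1) (φ x) (j + 1) = mkA i x j) ∧
      (∀ i x j, (mkA i x j)⁻¹ = mkA j x⁻¹ i) ∧
      (∀ z : A, ∃ i x j, z = mkA i x j) ∧
      (∀ i x j k y l, mkA i x j = mkA k y l →
        ∃ m n : ℕ, i + m = k + n ∧ j + m = l + n ∧ φ^[m] x = φ^[n] y) := by
  refine ⟨HnnQ φ, inferInstance, fun i x j => hnnMk φ (i, x, j), fun i x j k y l => rfl, rfl,
    fun i x j => ?_, fun i x j => rfl, fun z => ?_, fun i x j k y l h => ?_⟩
  · exact (hnnMk_eq φ).2 ⟨0, 1, rfl, rfl, rfl⟩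
  · obtain ⟨a, ha⟩ := hnnMk_surj φ z
    exact ⟨a.1, a.2.1, a.2.2, ha⟩
  · exact (hnnMk_eq φ).1 h

end SclIrr.Q
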