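import Pool.Agent.Lib.MP_ed1a61_al_Q.Corner

/-!
# Irrational scl, block Q: the function on the free group of rank four
-/

set_option autoImplicit false

namespace SclIrr.Q

open FreeGroup

/-- Cyclic order of the letters: `c < d⁻¹ < c⁻¹ < d < e < f⁻¹ < e⁻¹ < f`. -/
def pos (x : Fin 4 × Bool) : ℕ :=
  match x.1, x.2 with
  | 0, true => 0
  | 1, false => 1
  | 0, false => 2
  | 1, true => 3
  | 2, true => 4
  | 3, false => 5
  | 2, false => 6
  | 3, true => 7

/-- The difference modulo 8. -/
def kk (y z : Fin 4 × Bool) : ℕ := (pos z + 8 - pos (linv y)) % 8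

/-- The corner weight. -/
noncomputable def kap (y z : Fin 4 × Bool) : ℝ := 1 - (kk y z : ℝ) / 4

/-- `[x, y] [z, w]`. -/
def cc {G : Type} [Group G] (x y z w : G) : G :=
  (x * y * x⁻¹ * y⁻¹) * (z * w * z⁻¹ * w⁻¹)

/-- `[c, d] [e, f]`. -/
def xP : FreeGroup (Fin 4) := cc (of 0) (of 1) (of 2) (of 3)

/-- PROOF. `odd1_corner`; the hypotheses are finite statements on `kk`: for `z ≠ linv y`,
`kk (linv z) (linv y) + kk y z = 8`, `1 ≤ kk y z ≤ 7`; for distinct `p`, `g`, `q`:
`kk (linv p) g + kk (linv g) q + kk (linv q) p` is 8 or 16 (all by `decide`), so the sum of the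
three weights is `1` or `-1`. -/
theorem kap_odd1 : Odd1 (fun x : FreeGroup (Fin 4) => cs kap x.toWord) := by
  have h1 : ∀ y z : Fin 4 × Bool, z ≠ linv y → kk (linv z) (linv y) + kk y z = 8 := by
    decide
  have h2 : ∀ p g q : Fin 4 × Bool, p ≠ g → g ≠ q → q ≠ p →
      kk (linv p) g + kk (linv g) q + kk (linv q) p = 8 ∨
      kk (linv p) g + kk (linv g) q + kk (linv q) p = 16 := by
    decide
  refine odd1_corner kap (fun y z hz => ?_) (fun y z _ => ?_) fun p g q hpg hgq hqp => ?_
  · have h := h1 y z hz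
    have h' : (kk (linv z) (linv y) : ℝ) + (kk y z : ℝ) = 8 := by exact_mod_cast h
    unfold kap
    linarith
  · have h : (kk y z : ℝ) ≤ 8 := by
      have h3 : kk y z < 8 := Nat.mod_lt _ (by norm_num)
      exact_mod_cast h3.le
    have h0 : (0 : ℝ) ≤ (kk y z : ℝ) := Nat.cast_nonneg _
    unfold kap
    rw [abs_le]
    constructor <;> linarith
  · rcases h2 p g q hpg hgq hqp with h | h
    · have h' : (kk (linv p) g : ℝ) + (kk (linv g) q : ℝ) + (kk (linv q) p : ℝ) = 8 := by
        exact_mod_cast h
      unfold kap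
      rw [abs_le]
      constructor <;> linarith
    · have h' : (kk (linv p) g : ℝ) + (kk (linv g) q : ℝ) + (kk (linv q) p : ℝ) = 16 := by
        exact_mod_cast h
      unfold kap
      rw [abs_le]
      constructor <;> linarith

private def PFun_W : ℕ → List (Fin 4 × Bool)
  | 0 => []
  | n + 1 => (0, true) :: (1, true) :: (0, false) :: (1, false) :: (2, true) :: (3, true) ::
      (2, false) :: (3, false) :: PFun_W n

private theorem PFun_red (n : ℕ) : IsReduced ((3, false) :: PFun_W n) := by
  induction n with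
  | zero => exact IsReduced.singleton
  | succ n ih =>
    show IsReduced ((3, false) :: (0, true) :: (1, true) :: (0, false) :: (1, false) ::
      (2, true) :: (3, true) :: (2, false) :: (3, false) :: PFun_W n)
    simp only [isReduced_cons_cons]
    refine ⟨by decide, by decide, by decide, by decide, by decide, by decide, by decide,
      by decide, ih⟩

private theorem PFun_cs (n : ℕ) : cs kap ((3, false) :: PFun_W n) = 6 * (n : ℝ) := by
  induction n with
  | zero => simp [PFun_W, cs]
  | succ n ih =>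
    show kap (3, false) (0, true) + (kap (0, true) (1, true) + (kap (1, true) (0, false) +
      (kap (0, false) (1, false) + (kap (1, false) (2, true) + (kap (2, true) (3, true) +
      (kap (3, true) (2, false) + (kap (2, false) (3, false) +
        cs kap ((3, false) :: PFun_W n)))))))) = 6 * ((n + 1 : ℕ) : ℝ)
    rw [ih]
    have k1 : kk (3, false) (0, true) = 1 := by decide
    have k2 : kk (0, true) (1, true) = 1 := by decide
    have k3 : kk (1, true) (0, false) = 1 := by decide
    have k4 : kk (0, false) (1, false) = 1 := by decide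
    have k5 : kk (1, false) (2, true) = 1 := by decide
    have k6 : kk (2, true) (3, true) = 1 := by decide
    have k7 : kk (3, true) (2, false) = 1 := by decide
    have k8 : kk (2, false) (3, false) = 1 := by decide
    unfold kap
    rw [k1, k2, k3, k4, k5, k6, k7, k8]
    push_cast
    ring

private theorem PFun_word (n : ℕ) : (xP ^ n).toWord = PFun_W n := by
  have h1 : ∀ n : ℕ, xP ^ n = mk (PFun_W n) := by
    intro n
    induction n with
    | zero => rfl
    | succ n ih =>
      rw [pow_succ', ih]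
      rfl
  have h2 : IsReduced (PFun_W n) :=
    List.IsChain.right_of_append (l₁ := [(3, false)]) (PFun_red n)
  rw [h1, toWord_mk, h2.reduce_eq]

private theorem PFun_nat (n : ℕ) : |cs kap (xP ^ n).toWord - 6 * (n : ℝ)| ≤ 1 := by
  rw [PFun_word]
  cases n with
  | zero => simp [PFun_W, cs]
  | succ n =>
    have h := PFun_cs (n + 1)
    have h' : kap (3, false) (0, true) + cs kap (PFun_W (n + 1)) = 6 * ((n + 1 : ℕ) : ℝ) := h
    have k1 : kk (3, false) (0, true) = 1 := by decide
    unfold kap at h'
    rw [k1] at h'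
    change |cs kap (PFun_W (n + 1)) - 6 * ((n + 1 : ℕ) : ℝ)| ≤ 1
    unfold kap
    rw [abs_le]
    push_cast at h' ⊢
    constructor <;> linarith

/-- PROOF. `xP = mk l8`, `l8` the list of the eight letters `c d c⁻¹ d⁻¹ e f e⁻¹ f⁻¹`; for
`n ≥ 1` the list `(List.replicate n l8).flatten` is reduced, all its junctions have `kk = 1`,
weight `3/4`, so `cs = (8 n - 1) * 3/4`.  `n = 0`: `0`.  Negative `n`: oddness. -/
theorem kap_pow (n : ℤ) : |cs kap (xP ^ n).toWord - 6 * (n : ℝ)| ≤ 1 := by
  obtain ⟨m, rfl | rfl⟩ := n.eq_nat_or_neg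
  · have h := PFun_nat m
    rw [zpow_natCast, Int.cast_natCast]
    exact h
  · have h := PFun_nat m
    have h1 := kap_odd1.odd (xP ^ m)
    have h2 : cs kap ((xP ^ m)⁻¹).toWord = - cs kap (xP ^ m).toWord := h1
    rw [zpow_neg, zpow_natCast, h2, Int.cast_neg, Int.cast_natCast]
    have h3 : -cs kap (xP ^ m).toWord - 6 * -(m : ℝ) =
        -(cs kap (xP ^ m).toWord - 6 * (m : ℝ)) := by ring
    rw [h3, abs_neg]
    exact h

/-- PROOF. From `kap_pow`: `xP ^ n = 1` would give `|6 n| ≤ 1`. -/
theorem xP_inj : Function.Injective (fun n : ℤ => xP ^ n) := by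
  intro a b hab
  have h1 : xP ^ (a - b) = 1 := by
    have h2 : xP ^ a = xP ^ b := hab
    rw [zpow_sub, h2, mul_inv_cancel]
  have h := kap_pow (a - b)
  rw [h1, toWord_one] at h
  have h0 : cs kap ([] : List (Fin 4 × Bool)) = 0 := rfl
  rw [h0, zero_sub, abs_neg, abs_le] at h
  obtain ⟨h3, h4⟩ := h
  have h5 : (-1 : ℤ) ≤ 6 * (a - b) := by exact_mod_cast h3
  have h6 : 6 * (a - b) ≤ (1 : ℤ) := by exact_mod_cast h4
  omega

end SclIrr.Q
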