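import Pool.Agent.Lib.MP_ed1a61_al_Q.GrpB
import Pool.Agent.Lib.MP_ed1a61_al_Q.Avg
import Pool.Agent.Lib.MP_ed1a61_al_Q.PFun

/-!
# Irrational scl, block Q: the lower bound
-/

set_option autoImplicit false

namespace SclIrr.Q

open FreeGroup

variable {ph : List (Fin 2 × Bool) → List (Fin 2 × Bool)}
  {K : ℕ → List (Fin 2 × Bool) → ℕ → ℝ} {rho : ℝ}

/-- A group with elements satisfying the relations and the function giving the lower bound.

PROOF. `grpB`; `x = b ^ 6000`, `g (x ^ n) = g (b ^ (6000 n))` is within `2` of `6 n`; `average` for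
`B`, `x` and for `FreeGroup (Fin 4)`, `xP` (`kap_odd1`, `kap_pow`), both with `th = 6`;
`pair_amalgam` with `H = Multiplicative ℤ`, `φB = zpowersHom x` (injective since
`|g (x^n) - 6 n| ≤ 2`), `φP = zpowersHom xP`, `e k = 6 k`.  The value of `F` on the powers of
`a s b s` is that of the averaged function, within `C'` of `g`. -/
theorem lower (hK : KDat ph K rho) :
    ∃ (GG : Type) (_ : Group GG) (iF : FreeGroup (Fin 2) →* GG) (iP : FreeGroup (Fin 4) →* GG)
      (t s : GG) (F : GG → ℝ),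
      Odd1 F ∧ Function.Injective iF ∧ Function.Injective iP ∧
      (∀ x, t * iF x * t⁻¹ = iF (phi ph x)) ∧ s * s = 1 ∧
      iF (of 1) ^ 6000 = cc (iP (of 0)) (iP (of 1)) (iP (of 2)) (iP (of 3)) ∧
      ∃ C : ℝ, ∀ n : ℕ, (n : ℝ) * (2 + (1 - rho) / 1000) - C ≤
        F ((iF (of 0) * s * iF (of 1) * s) ^ n) := by
  obtain ⟨B, _, iF, t, s, g, og, hiF, ht, hs, hlow, hb⟩ := grpB hK
  -- the averaged functions
  have hx : ∀ n : ℤ, |g ((iF (of 1) ^ 6000) ^ n) - 6 * (n : ℝ)| ≤ 2 := by
    intro n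
    have h1 := hb (6000 * n)
    rw [← zpow_natCast, ← zpow_mul]
    push_cast at h1 ⊢
    rw [show (1 / 1000 : ℝ) * (6000 * (n : ℝ)) = 6 * (n : ℝ) by ring] at h1
    exact h1
  obtain ⟨fB, oB, lB, rB, C', hC'⟩ := average (iF (of 1) ^ 6000) g og 6 2 hx
  obtain ⟨fP, oP, lP, rP, _, _⟩ := average xP (fun x : FreeGroup (Fin 4) => cs kap x.toWord)
    kap_odd1 6 1 kap_pow
  have hB : Function.Injective (zpowersHom B (iF (of 1) ^ 6000)) := by
    rw [injective_iff_map_eq_one]
    intro k hk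
    rw [zpowersHom_apply] at hk
    have h1 := hx (Multiplicative.toAdd k)
    have h2 : g 1 = 0 := by
      have h3 := og.odd 1
      rw [inv_one] at h3
      linarith
    rw [hk, h2, zero_sub, abs_neg] at h1
    have h4 : |((Multiplicative.toAdd k : ℤ) : ℝ)| < 1 := by
      rw [abs_mul, abs_of_pos (by norm_num : (0 : ℝ) < 6)] at h1
      linarith
    have h5 : |Multiplicative.toAdd k| < 1 := by exact_mod_cast h4
    exact Multiplicative.toAdd.injective (Int.abs_lt_one_iff.1 h5)
  have hP : Function.Injective (zpowersHom (FreeGroup (Fin 4)) xP) := by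
    intro k l hkl
    rw [zpowersHom_apply, zpowersHom_apply] at hkl
    exact Multiplicative.toAdd.injective (xP_inj hkl)
  obtain ⟨GG, iG, iB, iP, F, oF, hiB, hiP, hcom, hFB, hFP, _⟩ := pair_amalgam
    (zpowersHom B (iF (of 1) ^ 6000)) (zpowersHom (FreeGroup (Fin 4)) xP) hB hP
    (fun k => 6 * ((Multiplicative.toAdd k : ℤ) : ℝ))
    (fun h k => by rw [toAdd_mul, Int.cast_add, mul_add]) fB fP oB oP
    (fun h x => by rw [zpowersHom_apply]; exact lB _ _)
    (fun h x => by rw [zpowersHom_apply]; exact rB _ _)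
    (fun h x => by rw [zpowersHom_apply]; exact lP _ _)
    (fun h x => by rw [zpowersHom_apply]; exact rP _ _)
  refine ⟨GG, iG, iB.comp iF, iP, iB t, iB s, F, oF, hiB.comp hiF, hiP, fun x => ?_, ?_, ?_,
    C', fun n => ?_⟩
  · rw [MonoidHom.comp_apply, MonoidHom.comp_apply, ← _root_.map_inv, ← _root_.map_mul,
      ← _root_.map_mul, ht]
  · rw [← _root_.map_mul, hs, _root_.map_one]
  · have h1 := hcom (Multiplicative.ofAdd 1)
    rw [zpowersHom_apply, zpowersHom_apply, toAdd_ofAdd, zpow_one, zpow_one, _root_.map_pow] at h1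
    rw [MonoidHom.comp_apply, h1]
    simp only [xP, cc, _root_.map_mul, _root_.map_inv]
  · have h1 : ((iB.comp iF) (of 0) * iB s * (iB.comp iF) (of 1) * iB s) ^ n =
        iB ((iF (of 0) * s * iF (of 1) * s) ^ n) := by
      rw [_root_.map_pow, _root_.map_mul, _root_.map_mul, _root_.map_mul]
      rfl
    rw [h1, hFB]
    have h2 := hC' ((iF (of 0) * s * iF (of 1) * s) ^ n)
    have h3 := hlow n
    have h4 := abs_le.1 h2
    linarith [h4.1]

end SclIrr.Q
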