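import Pool.Agent.Lib.MP_ed1a61_al_Q.Tri

/-!
# Irrational scl, block Q: the endomorphism of the free group given by the substitution
-/

set_option autoImplicit false

namespace SclIrr.Q

open FreeGroup

variable {ph : List (Fin 2 × Bool) → List (Fin 2 × Bool)}
  {K : ℕ → List (Fin 2 × Bool) → ℕ → ℝ} {rho : ℝ}

/-- The endomorphism with `x ↦ mk (ph [x])`. -/
def phi (ph : List (Fin 2 × Bool) → List (Fin 2 × Bool)) :
    FreeGroup (Fin 2) →* FreeGroup (Fin 2) :=
  FreeGroup.lift fun x => FreeGroup.mk (ph [(x, true)])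

/-- PROOF. Induction on `L` with `KDat.app`, `KDat.inv` (`[(x, false)] = invRev [(x, true)]`),
`ph [] = []` (from `app`). -/
theorem phi_mk (hK : KDat ph K rho) (L : List (Fin 2 × Bool)) :
    phi ph (FreeGroup.mk L) = FreeGroup.mk (ph L) := by
  induction L with
  | nil =>
    have h1 := hK.app [] []
    rw [List.append_nil] at h1
    have h2 : ph [] = [] := List.self_eq_append_right.1 h1
    rw [h2]
    exact _root_.map_one _
  | cons p L ih =>
    have h1 : FreeGroup.mk (p :: L) = FreeGroup.mk [p] * FreeGroup.mk L := by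
      rw [FreeGroup.mul_mk]
      rfl
    have h2 : ph (p :: L) = ph [p] ++ ph L := hK.app [p] L
    have h3 : ∀ x : Fin 2, phi ph (FreeGroup.mk [(x, true)]) =
        FreeGroup.mk (ph [(x, true)]) := fun x => FreeGroup.lift_apply_of
    have h4 : phi ph (FreeGroup.mk [p]) = FreeGroup.mk (ph [p]) := by
      obtain ⟨x, b⟩ := p
      cases b with
      | true => exact h3 x
      | false =>
        have h5 : [(x, false)] = FreeGroup.invRev [(x, true)] := rfl
        rw [h5, hK.inv, ← FreeGroup.inv_mk, ← FreeGroup.inv_mk, _root_.map_inv, h3]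
    rw [h1, _root_.map_mul, ih, h4, h2, FreeGroup.mul_mk]

/-- PROOF. `phi_mk`, `mk_toWord`, `KDat.red`, `IsReduced.reduce_eq`. -/
theorem toWord_phi (hK : KDat ph K rho) (x : FreeGroup (Fin 2)) :
    (phi ph x).toWord = ph x.toWord := by
  have h1 := phi_mk hK x.toWord
  rw [FreeGroup.mk_toWord] at h1
  rw [h1, FreeGroup.toWord_mk]
  exact (hK.red _ FreeGroup.isReduced_toWord).reduce_eq

/-- PROOF. `toWord_phi`, `KDat.inj`, `toWord_injective`. -/
theorem phi_injective (hK : KDat ph K rho) : Function.Injective (phi ph) := by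
  intro x y h
  apply FreeGroup.toWord_injective
  apply hK.inj _ _ FreeGroup.isReduced_toWord FreeGroup.isReduced_toWord
  rw [← toWord_phi hK, ← toWord_phi hK, h]

end SclIrr.Q
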