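import Pool.Agent.Lib.MP_ed1a61_al_Q.Ph

/-!
# Irrational scl, block Q: the function `psi` on triples
-/

set_option autoImplicit false

noncomputable section

namespace SclIrr.Q

open FreeGroup

/-- The sign of a letter. -/
def sgn (x : Fin 2 × Bool) : ℝ := if x.2 = true then 1 else -1

/-- Half of the sum of the signs of the first and of the last letter (zero for the empty
list). -/
def sg (L : List (Fin 2 × Bool)) : ℝ :=
  ((L.head?.elim 0 sgn) + (L.getLast?.elim 0 sgn)) / 2

/-- The symmetrised `K`. -/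
def SS (K : ℕ → List (Fin 2 × Bool) → ℕ → ℝ) (i : ℕ) (L : List (Fin 2 × Bool)) (j : ℕ) : ℝ :=
  K i L j - K j (invRev L) i

/-- `psi i x j = (1 - 120/1000) sg x + (1/1000) (K i x j - K j x⁻¹ i)`. -/
def psi (K : ℕ → List (Fin 2 × Bool) → ℕ → ℝ) (i : ℕ) (x : FreeGroup (Fin 2)) (j : ℕ) : ℝ :=
  (22 / 25) * sg x.toWord + (1 / 1000) * SS K i x.toWord j

end SclIrr.Q
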