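import Pool.Agent.Lib.MP_ed1a61_al_Q.PsiDefs

/-!
# Irrational scl, block Q: invariance and oddness of `psi`
-/

set_option autoImplicit false

namespace SclIrr.Q

open FreeGroup

variable {ph : List (Fin 2 × Bool) → List (Fin 2 × Bool)}
  {K : ℕ → List (Fin 2 × Bool) → ℕ → ℝ} {rho : ℝ}

private theorem elim_sgn (o : Option (Fin 2 × Bool)) :
    o.elim 0 sgn = (o.map Prod.snd).elim 0 (fun b => if b = true then (1 : ℝ) else -1) := by
  cases o <;> rfl

private theorem sg_congr {L M : List (Fin 2 × Bool)}
    (h1 : L.head?.map Prod.snd = M.head?.map Prod.snd)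
    (h2 : L.getLast?.map Prod.snd = M.getLast?.map Prod.snd) : sg L = sg M := by
  unfold sg
  rw [elim_sgn, elim_sgn, elim_sgn, elim_sgn, h1, h2]

private theorem sgn_elim_neg (o : Option (Fin 2 × Bool)) :
    (o.map (fun x : Fin 2 × Bool => (x.1, !x.2))).elim 0 sgn = -(o.elim 0 sgn) := by
  cases o with
  | none => simp
  | some x =>
    obtain ⟨x, b⟩ := x
    cases b <;> simp [sgn]

private theorem sg_invRev (L : List (Fin 2 × Bool)) : sg (invRev L) = -sg L := by
  unfold sg invRev
  rw [List.head?_reverse, List.getLast?_reverse, List.getLast?_map, List.head?_map,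
    sgn_elim_neg, sgn_elim_neg]
  ring

/-- PROOF. `toWord_phi`; `KDat.head`, `KDat.last` for `sg`; `KDat.shift`, `KDat.inv` for `SS`. -/
theorem psi_shift (hK : KDat ph K rho) (i : ℕ) (x : FreeGroup (Fin 2)) (j : ℕ) :
    psi K (i + 1) (phi ph x) (j + 1) = psi K i x j := by
  unfold psi SS
  rw [toWord_phi hK, sg_congr (hK.head x.toWord) (hK.last x.toWord), ← hK.inv, hK.shift,
    hK.shift]

/-- PROOF. `toWord_inv`; the first letter of `invRev L` is the inverse of the last letter of `L`
(`invRev L = (L.map _).reverse`); `invRev_invRev`. -/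
theorem psi_odd (i : ℕ) (x : FreeGroup (Fin 2)) (j : ℕ) :
    psi K j x⁻¹ i = - psi K i x j := by
  unfold psi SS
  rw [toWord_inv, sg_invRev, invRev_invRev]
  ring

/-- `psi` of `b ^ n`, `n ≥ 1`, and of `a`, `b`.

PROOF. `toWord_of_pow`; `sg = 1`; `K` of the positive list by `ka`, `kb`, `kb'`; the inverse list
is nonempty negative: `K = -120` (`neg`, `low`). -/
theorem psi_vals (hK : KDat ph K rho) :
    1 - rho / 1000 ≤ psi K 0 (of 0) 0 ∧ 1 + 1 / 1000 ≤ psi K 0 (of 1) 0 ∧
      ∀ n : ℕ, |psi K 0 (of 1 ^ n) 0 - (1 / 1000) * (n : ℝ)| ≤ 2 := by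
  have hneg : ∀ L : List (Fin 2 × Bool), L ≠ [] → (∀ x ∈ L, x.2 = false) → K 0 L 0 = -120 :=
    fun L h1 h2 => le_antisymm (hK.neg 0 L 0 h1 h2) (hK.low 0 L 0)
  have h0 : psi K 0 (of 0) 0 = 22 / 25 + (1 / 1000) * (K 0 [(0, true)] 0 + 120) := by
    unfold psi SS
    rw [toWord_of]
    have e1 : sg [((0 : Fin 2), true)] = 1 := by
      simp [sg, sgn]
    have e2 : K 0 (invRev [((0 : Fin 2), true)]) 0 = -120 := by
      apply hneg
      · simp [invRev]
      · intro x hx
        simp [invRev] at hx
        rw [hx]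
    rw [e1, e2]
    ring
  have hn : ∀ n : ℕ, 1 ≤ n → psi K 0 (of 1 ^ n) 0 =
      22 / 25 + (1 / 1000) * (K 0 (List.replicate n (1, true)) 0 + 120) := by
    intro n hn
    obtain ⟨m, rfl⟩ : ∃ m, n = m + 1 := ⟨n - 1, by omega⟩
    unfold psi SS
    rw [toWord_of_pow]
    have e1 : sg (List.replicate (m + 1) ((1 : Fin 2), true)) = 1 := by
      unfold sg
      rw [List.getLast?_replicate, List.head?_replicate]
      simp [sgn]
    have e2 : K 0 (invRev (List.replicate (m + 1) ((1 : Fin 2), true))) 0 = -120 := by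
      apply hneg
      · intro h
        have h1 := congrArg List.length h
        rw [invRev_length, List.length_replicate] at h1
        simp at h1
      · intro x hx
        unfold invRev at hx
        rw [List.mem_reverse, List.map_replicate] at hx
        rw [List.eq_of_mem_replicate hx]
        rfl
    rw [e1, e2]
    ring
  refine ⟨?_, ?_, ?_⟩
  · rw [h0]
    have h1 := hK.ka
    linarith
  · have h1 := hn 1 le_rfl
    rw [pow_one] at h1
    rw [h1]
    have h2 := hK.kb 1
    rw [Nat.cast_one] at h2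
    linarith
  · intro n
    rcases Nat.eq_zero_or_pos n with rfl | hpos
    · have e1 : psi K 0 (of 1 ^ 0) 0 = 0 := by
        unfold psi SS
        rw [pow_zero, toWord_one]
        have e3 : sg [] = 0 := by
          simp [sg]
        have e4 : invRev ([] : List (Fin 2 × Bool)) = [] := rfl
        rw [e3, e4]
        ring
      rw [e1]
      norm_num
    · rw [hn n hpos, abs_le]
      have h1 := hK.kb n
      have h2 := hK.kb' n
      constructor <;> linarith

end SclIrr.Q
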