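import Pool.Agent.Lib.MP_ed1a61_al_Q.Defs

/-!
# Irrational scl, block Q: tripods in a free group
-/

set_option autoImplicit false

namespace SclIrr.Q

private theorem Tri_sub {α : Type} {L₁ L₂ : List (α × Bool)} (h : FreeGroup.IsReduced L₂)
    (h' : L₁ <:+: L₂) : FreeGroup.IsReduced L₁ := by
  obtain ⟨s, t, rfl⟩ := h'
  exact List.IsChain.right_of_append (List.IsChain.left_of_append h)

open FreeGroup

private theorem tri_aux {α : Type} (X : List (α × Bool)) : ∀ Y : List (α × Bool),
    IsReduced X → IsReduced Y → ∃ p g q : List (α × Bool), X = p ++ g ∧ Y = invRev g ++ q ∧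
      IsReduced (p ++ q) ∧ mk (X ++ Y) = mk (p ++ q) := by
  induction X using List.reverseRecOn with
  | nil =>
    intro Y _ hY
    exact ⟨[], [], Y, rfl, rfl, hY, rfl⟩
  | append_singleton X u ih =>
    intro Y hX hY
    cases Y with
    | nil =>
      exact ⟨X ++ [u], [], [], (List.append_nil _).symm, rfl, by rwa [List.append_nil], rfl⟩
    | cons v Y =>
      by_cases hv : v = (u.1, !u.2)
      · obtain ⟨p, g, q, h1, h2, h3, h4⟩ := ih Y
          (Tri_sub hX ⟨[], [u], rfl⟩) (Tri_sub hY ⟨[v], [], by simp⟩)
        refine ⟨p, g ++ [u], q, ?_, ?_, h3, ?_⟩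
        · rw [h1, List.append_assoc]
        · rw [invRev_append, h2, hv]
          rfl
        · have h5 : (mk [v] : FreeGroup α) = (mk [u])⁻¹ := by
            rw [inv_mk, hv]
            rfl
          have h6 : (mk (v :: Y) : FreeGroup α) = mk [v] * mk Y := by
            rw [mul_mk, List.singleton_append]
          rw [← h4, ← mul_mk, ← mul_mk, ← mul_mk, h6, h5, mul_assoc, mul_inv_cancel_left]
      · refine ⟨X ++ [u], [], v :: Y, (List.append_nil _).symm, rfl, ?_, rfl⟩
        have h1 : IsReduced (u :: v :: Y) := by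
          rw [isReduced_cons_cons]
          refine ⟨fun h2 => ?_, hY⟩
          by_contra h3
          apply hv
          refine Prod.ext h2.symm ?_
          have h4 : ∀ a b : Bool, ¬ a = b → b = !a := by decide
          exact h4 _ _ h3
        have h2 : IsReduced ([u] ++ v :: Y) := h1
        exact hX.append_overlap h2 (List.cons_ne_nil _ _)

/-- Tripod decomposition: the common part `g` of two reduced words cancels and the rest is
reduced.

PROOF. For reduced lists `X`, `Y` show by induction on `X` from the right (`List.reverseRecOn`,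
all `Y`): there are `p g q` with `X = p ++ g`, `Y = invRev g ++ q`, `p ++ q` reduced and
`mk (X ++ Y) = mk (p ++ q)`.  `X = []`: `p = g = []`.  `X = X' ++ [u]`, `Y = []`: `g = q = []`.
`X = X' ++ [u]`, `Y = v :: Y'` with `v = (u.1, !u.2)`: induction for `X'`, `Y'` and
`g := g' ++ [u]`.  Otherwise `X ++ Y` is reduced.  Then `toWord_mul`, `IsReduced.reduce_eq`. -/
theorem tripod {α : Type} [DecidableEq α] (x y : FreeGroup α) :
    ∃ p g q : List (α × Bool), x.toWord = p ++ g ∧ y.toWord = invRev g ++ q ∧
      (x * y).toWord = p ++ q := by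
  obtain ⟨p, g, q, h1, h2, h3, h4⟩ := tri_aux x.toWord y.toWord isReduced_toWord
    isReduced_toWord
  refine ⟨p, g, q, h1, h2, ?_⟩
  have h5 : x * y = mk (p ++ q) := by
    rw [← h4, ← mul_mk, mk_toWord, mk_toWord]
  rw [h5, toWord_mk, h3.reduce_eq]

end SclIrr.Q
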